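import Mathlib
import Pool.Agent.Helper91.MC.SVX
import Pool.Agent.Helper42.MC.ZERO

/-!
MP_4042d8_co, section C: swaps. A swap flips an edge `a b` with `a` of type `Q` and `b` of type `S`.
-/

set_option autoImplicit false
set_option linter.unusedSectionVars false
set_option linter.unusedSimpArgs false
set_option linter.unusedVariables false

namespace Pool.Agent.Helper96.MC

open Pool.Agent.Helper27.MC
open Pool.Agent.Helper51.MC Pool.Agent.Helper88.MC Pool.Agent.Helper64.MC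
open Pool.Agent.Helper91.MC Pool.Agent.Helper42.MC

variable {V : Type} [Fintype V] [DecidableEq V] {G : SimpleGraph V} [DecidableRel G.Adj]
  {c : V → Bool}

/-! ### types and mates -/

theorem ne_col {c : V → Bool} {x y : V} (hx : c x = false) (hy : c y = true) : x ≠ y := by
  rintro rfl
  rw [hx] at hy
  cases hy

theorem mu_le_uniq {v : V} (h : ∀ y z, Rm G c v y → Rm G c v z → y = z) : mu G c v ≤ 1 := by
  by_cases h0 : ∃ z, Rm G c v z
  · obtain ⟨z, hz⟩ := h0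
    exact mu_le_one (z := z) fun y hy => h y z hy hz
  · push Not at h0
    rw [mu_eq_zero h0]
    norm_num

theorem tQ_iff (hm : ∀ v, mu G c v ≤ 1) {v : V} : tQ G c v ↔ c v = true ∧ ∃ w, Rm G c v w := by
  constructor
  · rintro ⟨h1, h2⟩
    exact ⟨h1, exists_mate h2⟩
  · rintro ⟨h1, w, hw⟩
    exact ⟨h1, mu_of_rm hm hw⟩

theorem tS_iff (hm : ∀ v, mu G c v ≤ 1) {v : V} : tS G c v ↔ c v = false ∧ ∃ w, Rm G c v w := by
  constructor
  · rintro ⟨h1, h2⟩
    exact ⟨h1, exists_mate h2⟩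
  · rintro ⟨h1, w, hw⟩
    exact ⟨h1, mu_of_rm hm hw⟩

theorem tA_iff {v : V} : tA G c v ↔ c v = true ∧ ∀ w, ¬ Rm G c v w := by
  constructor
  · rintro ⟨h1, h2⟩
    exact ⟨h1, fun w => nomate h2 w⟩
  · rintro ⟨h1, h2⟩
    exact ⟨h1, mu_eq_zero h2⟩

theorem tB_iff {v : V} : tB G c v ↔ c v = false ∧ ∀ w, ¬ Rm G c v w := by
  constructor
  · rintro ⟨h1, h2⟩
    exact ⟨h1, fun w => nomate h2 w⟩
  · rintro ⟨h1, h2⟩
    exact ⟨h1, mu_eq_zero h2⟩

/-! ### swaps -/

variable (G) in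
/-- A swap: `a` of type `Q` (mate `a1`), `b` of type `S` (mate `b1`), adjacent; third neighbours
`a2`, `b2`. -/
structure Sw (c : V → Bool) (a a1 a2 b b1 b2 : V) : Prop where
  ca : c a = true
  cb : c b = false
  ca1 : c a1 = true
  ca2 : c a2 = false
  cb1 : c b1 = false
  cb2 : c b2 = true
  na : ∀ w, G.Adj a w ↔ w = b ∨ w = a1 ∨ w = a2
  nb : ∀ w, G.Adj b w ↔ w = a ∨ w = b1 ∨ w = b2
  a2b : a2 ≠ b
  b2a : b2 ≠ a
  h1 : a2 = b1 ∨ mu G c a2 = 0
  h2 : b2 = a1 ∨ mu G c b2 = 0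

section

variable {a a1 a2 b b1 b2 : V}

theorem Sw.raa1 (h : Sw G c a a1 a2 b b1 b2) : Rm G c a a1 :=
  ⟨(h.na a1).2 (by simp), by rw [h.ca, h.ca1]⟩

theorem Sw.rbb1 (h : Sw G c a a1 a2 b b1 b2) : Rm G c b b1 :=
  ⟨(h.nb b1).2 (by simp), by rw [h.cb, h.cb1]⟩

/-- mono edges after a swap -/
theorem Sw.rm (h : Sw G c a a1 a2 b b1 b2) (v w : V) : Rm G (flp c {a, b}) v w ↔
    (Rm G c v w ∧ v ≠ a ∧ v ≠ b ∧ w ≠ a ∧ w ≠ b) ∨ (v = a ∧ w = a2) ∨ (v = a2 ∧ w = a) ∨
      (v = b ∧ w = b2) ∨ (v = b2 ∧ w = b) := by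
  have hab : a ≠ b := (ne_col h.cb h.ca).symm
  have l : ∀ x, ¬ G.Adj x x := fun x => G.loopless.irrefl x
  have ca := h.ca
  have cb := h.cb
  have ca1 := h.ca1
  have ca2 := h.ca2
  have cb1 := h.cb1
  have cb2 := h.cb2
  have na := h.na
  have nb := h.nb
  have na' : ∀ w, G.Adj w a ↔ w = b ∨ w = a1 ∨ w = a2 := fun w => by rw [G.adj_comm, na]
  have nb' : ∀ w, G.Adj w b ↔ w = a ∨ w = b1 ∨ w = b2 := fun w => by rw [G.adj_comm, nb]
  have a2b := h.a2b
  have b2a := h.b2a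
  unfold Rm flp
  simp only [Finset.mem_insert, Finset.mem_singleton]
  by_cases v1 : v = a
  · subst v1
    by_cases w1 : w = v
    · subst w1
      grind
    · by_cases w2 : w = b
      · subst w2
        grind
      · grind
  · by_cases v2 : v = b
    · subst v2
      by_cases w1 : w = a
      · subst w1
        grind
      · grind
    · by_cases w1 : w = a
      · subst w1
        grind
      · by_cases w2 : w = b
        · subst w2
          grind
        · grind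

/-- the condition `mu ≤ 1` is preserved -/
theorem Sw.ml (h : Sw G c a a1 a2 b b1 b2) (hm : ∀ v, mu G c v ≤ 1) (v : V) :
    mu G (flp c {a, b}) v ≤ 1 := by
  refine mu_le_uniq fun y z hy hz => ?_
  rw [h.rm] at hy hz
  have hab : a ≠ b := (ne_col h.cb h.ca).symm
  have e1 : a ≠ a2 := (ne_col h.ca2 h.ca).symm
  have e2 : b ≠ b2 := ne_col h.cb h.cb2
  have e3 : a2 ≠ b2 := ne_col h.ca2 h.cb2
  have a2b := h.a2b
  have b2a := h.b2a
  have u : ∀ y z, Rm G c v y → Rm G c v z → y = z := fun y z h1 h2 => rm_uniq (hm v) h1 h2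
  have k1 : ∀ y, Rm G c a2 y → y = b := by
    intro y hy
    rcases h.h1 with h1 | h1
    · rw [h1] at hy
      exact rm_uniq (hm b1) hy h.rbb1.symm
    · exact absurd hy (nomate h1 y)
  have k2 : ∀ y, Rm G c b2 y → y = a := by
    intro y hy
    rcases h.h2 with h1 | h1
    · rw [h1] at hy
      exact rm_uniq (hm a1) hy h.raa1.symm
    · exact absurd hy (nomate h1 y)
  rcases hy with ⟨hy, y1, y2, y3, y4⟩ | ⟨y1, y2⟩ | ⟨y1, y2⟩ | ⟨y1, y2⟩ | ⟨y1, y2⟩ <;>
    rcases hz with ⟨hz, z1, z2, z3, z4⟩ | ⟨z1, z2⟩ | ⟨z1, z2⟩ | ⟨z1, z2⟩ | ⟨z1, z2⟩ <;>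
    first
      | exact u y z hy hz
      | (exfalso; subst y1; exact absurd (k1 _ (by assumption)) (by assumption))
      | grind

end

end Pool.Agent.Helper96.MC
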