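import Mathlib
import Pool.Agent.Helper96.MC.Sw

/-!
MP_4042d8_co, section C: definitions and statements (paper text: ando_sec_C.txt of helper96).
-/

set_option autoImplicit false
set_option linter.unusedSectionVars false
set_option linter.unusedSimpArgs false
set_option linter.unusedVariables false

namespace Pool.Agent.Helper96.MC

open Pool.Agent.Helper27.MC
open Pool.Agent.Helper51.MC Pool.Agent.Helper88.MC Pool.Agent.Helper64.MC
open Pool.Agent.Helper91.MC Pool.Agent.Helper42.MC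

section defs

variable {V : Type} [Fintype V] [DecidableEq V] (G : SimpleGraph V) [DecidableRel G.Adj]

/-- a Theta: triangle with apex `q` of type `Q` and corners `s`, `s'` (mates, colour false) -/
def Tp (c : V → Bool) (q s s' : V) : Prop :=
  tQ G c q ∧ G.Adj q s ∧ G.Adj q s' ∧ Rm G c s s' ∧ c s = false

/-- apexes -/
def Apx (c : V → Bool) (q : V) : Prop := ∃ s s', Tp G c q s s'

/-- full data of a Theta: apex `q`, mate `p`, corners `x`, `x'`, their other true neighbours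
`n`, `n'` -/
structure Td (c : V → Bool) (q p x x' n n' : V) : Prop where
  cq : c q = true
  cp : c p = true
  cx : c x = false
  cx' : c x' = false
  cn : c n = true
  cn' : c n' = true
  nq : N3 G q p x x'
  nx : N3 G x q x' n
  nx' : N3 G x' q x n'

/-- the two neighbours of `b` other than `u` are mates -/
def Pm (c : V → Bool) (b u : V) : Prop := ∃ k k', N3 G b u k k' ∧ Rm G c k k'

open Classical in
/-- number of vertices of type `Q` which are apexes or mates of apexes -/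
noncomputable def Kp (c : V → Bool) : ℕ :=
  (Finset.univ.filter (fun v => c v = true ∧ ∃ w, Rm G c v w ∧ (Apx G c v ∨ Apx G c w))).card

open Classical in
/-- number of apexes -/
noncomputable def Ta (c : V → Bool) : ℕ := (Finset.univ.filter (fun v => Apx G c v)).card

/-- optimal colourings with `Kp` minimal -/
def CK (c : V → Bool) (j : ℕ) : Prop := Opt G c j ∧ ∀ c', Opt G c' j → Kp G c ≤ Kp G c'

/-- extremal colourings: `Kp` minimal, then `Ta` minimal, then the number of free vertices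
maximal -/
structure Exm (c : V → Bool) (j : ℕ) : Prop where
  ck : CK G c j
  ta : ∀ c', CK G c' j → Ta G c ≤ Ta G c'
  fr : ∀ c', CK G c' j → Ta G c' = Ta G c → (Fr G c').card ≤ (Fr G c).card

/-- `w` is a child of `q`: the mate of the apex `w` is the outer neighbour of a corner of `q` -/
def Ch (c : V → Bool) (q w : V) : Prop :=
  ∃ p x x' n n', Td G c q p x x' n n' ∧ n ≠ p ∧ Apx G c w ∧ Rm G c w n

/-- `q` has a corner with outer neighbour of type `A` -/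
def Ac (c : V → Bool) (q : V) : Prop := ∃ p x x' n n', Td G c q p x x' n n' ∧ tA G c n

/-- `m`-accessible -/
def Acc (c : V → Bool) (m : ℕ) (q : V) : Prop :=
  ∃ w : ℕ → V, w 0 = q ∧ (∀ i, i < m → Ch G c (w i) (w (i + 1))) ∧ Ac G c (w m)

/-- result `c1 = flp c {q, x}` of the rotation M1 at the corner `x` (outer neighbour `n` in `A`) -/
structure M1o (c c1 : V → Bool) (q p x x' n n' : V) : Prop where
  mu1 : ∀ v, mu G c1 v ≤ 1
  opt : ∀ j, Opt G c j → Opt G c1 j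
  rm : ∀ v w, Rm G c1 v w ↔ (Rm G c v w ∧ v ≠ q ∧ v ≠ x ∧ w ≠ q ∧ w ≠ x) ∨ (v = q ∧ w = x') ∨
    (v = x' ∧ w = q) ∨ (v = x ∧ w = n) ∨ (v = n ∧ w = x)
  col : ∀ v, v ≠ q → v ≠ x → c1 v = c v
  cq : c1 q = false
  cx : c1 x = true
  tA : ∀ v, tA G c1 v ↔ (tA G c v ∧ v ≠ n) ∨ v = p
  tQ : ∀ v, tQ G c1 v ↔ (tQ G c v ∧ v ≠ q ∧ v ≠ p) ∨ v = x ∨ v = n
  tS : ∀ v, tS G c1 v ↔ (tS G c v ∧ v ≠ x) ∨ v = q
  td : Td G c1 x n q x' p n'
  tp : ∀ v s s', v ≠ q → v ≠ p → v ≠ x → v ≠ n → (Tp G c1 v s s' ↔ Tp G c v s s')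
  apx : ∀ v, Apx G c1 v ↔ (Apx G c v ∧ v ≠ q ∧ v ≠ p) ∨ v = x ∨ (v = n ∧ Pm G c n x)
  kp : Kp G c1 ≤ Kp G c

/-- result `c1 = flp c {p, u}` of the move M2 -/
structure M2o (c c1 : V → Bool) (q p u u' z b : V) : Prop where
  mu1 : ∀ v, mu G c1 v ≤ 1
  opt : ∀ j, Opt G c j → Opt G c1 j
  rm : ∀ v w, Rm G c1 v w ↔ (Rm G c v w ∧ v ≠ p ∧ v ≠ u ∧ w ≠ p ∧ w ≠ u) ∨ (v = p ∧ w = z) ∨
    (v = z ∧ w = p) ∨ (v = u ∧ w = b) ∨ (v = b ∧ w = u)
  col : ∀ v, v ≠ p → v ≠ u → c1 v = c v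
  cp : c1 p = false
  cu : c1 u = true
  tA : ∀ v, tA G c1 v ↔ (tA G c v ∧ v ≠ b) ∨ v = q
  tQ : ∀ v, tQ G c1 v ↔ (tQ G c v ∧ v ≠ p ∧ v ≠ q) ∨ v = u ∨ v = b
  tS : ∀ v, tS G c1 v ↔ (tS G c v ∧ v ≠ u ∧ v ≠ u') ∨ v = p ∨ v = z
  tp : ∀ v s s', v ≠ p → v ≠ q → v ≠ u → v ≠ b → (Tp G c1 v s s' ↔ Tp G c v s s')
  apx : ∀ v, Apx G c1 v ↔ (Apx G c v ∧ v ≠ q) ∨ (v = b ∧ Pm G c b u)
  kp : Pm G c b u → Kp G c1 ≤ Kp G c
  kp' : ¬ Pm G c b u → Kp G c1 < Kp G c

end defs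

/-- M1 (rotation): no optimality needed. -/
def ST_M1 : Prop :=
  ∀ (V : Type) [Fintype V] [DecidableEq V] (G : SimpleGraph V) [DecidableRel G.Adj],
    G.IsRegularOfDegree 3 → ∀ (c : V → Bool), (∀ v, mu G c v ≤ 1) →
      ∀ q p x x' n n', Td G c q p x x' n n' → tA G c n →
        M1o G c (flp c {q, x}) q p x x' n n'

/-- M2 (alpha). -/
def ST_M2 : Prop :=
  ∀ (V : Type) [Fintype V] [DecidableEq V] (G : SimpleGraph V) [DecidableRel G.Adj],
    G.IsRegularOfDegree 3 → ∀ (c : V → Bool) (j : ℕ), 1 ≤ j → Opt G c j →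
      ∀ q p u u' z b, Apx G c q → Rm G c q p → ¬ Apx G c p → N3 G p q u z → c u = false →
        N3 G u p u' b → c u' = false → tA G c b →
          tB G c z ∧ M2o G c (flp c {p, u}) q p u u' z b

/-- C1: diamonds. -/
def ST_C1 : Prop :=
  ∀ (V : Type) [Fintype V] [DecidableEq V] (G : SimpleGraph V) [DecidableRel G.Adj],
    G.IsRegularOfDegree 3 → ∀ (c : V → Bool) (j : ℕ), 1 ≤ j → CK G c j →
      ∀ q p x x' n n', Td G c q p x x' n n' → (n = p ∧ n' = p) ∨ (n ≠ p ∧ n' ≠ p ∧ n ≠ n')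

/-- C2. -/
def ST_C2 : Prop :=
  ∀ (V : Type) [Fintype V] [DecidableEq V] (G : SimpleGraph V) [DecidableRel G.Adj],
    G.IsRegularOfDegree 3 → ∀ (c : V → Bool) (j : ℕ), 1 ≤ j → CK G c j →
      ∀ q p u b, Apx G c q → Rm G c q p → ¬ Apx G c p → G.Adj p u → tS G c u → G.Adj u b →
        b ≠ p → c b = true → tQ G c b ∨ (tA G c b ∧ Pm G c b u)

/-- C3. -/
def ST_C3 : Prop :=
  ∀ (V : Type) [Fintype V] [DecidableEq V] (G : SimpleGraph V) [DecidableRel G.Adj],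
    G.IsRegularOfDegree 3 → ∀ (c : V → Bool) (j : ℕ), 1 ≤ j → CK G c j →
      ∀ a s s' y w, tA G c a → G.Adj a s → G.Adj a s' → Rm G c s s' → G.Adj s y → y ≠ a →
        c y = true → Apx G c w → ¬ Rm G c w y

/-- C4. -/
def ST_C4 : Prop :=
  ∀ (V : Type) [Fintype V] [DecidableEq V] (G : SimpleGraph V) [DecidableRel G.Adj],
    G.IsRegularOfDegree 3 → ∀ (c : V → Bool) (j : ℕ), 1 ≤ j → CK G c j →
      ∀ m q q' p p' s, Apx G c q → Apx G c q' → q ≠ q' → Rm G c q p → Rm G c q' p' →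
        ¬ Apx G c p → ¬ Apx G c p' → tS G c s → G.Adj s p → G.Adj s p' → ¬ Acc G c m q

/-- C5. -/
def ST_C5 : Prop :=
  ∀ (V : Type) [Fintype V] [DecidableEq V] (G : SimpleGraph V) [DecidableRel G.Adj],
    G.IsRegularOfDegree 3 → ∀ (c : V → Bool) (j : ℕ), 1 ≤ j → CK G c j →
      ∀ m q p w, Apx G c q → Apx G c p → Rm G c q p → Ch G c q w → ¬ Acc G c m p

/-- C6. -/
def ST_C6 : Prop :=
  ∀ (V : Type) [Fintype V] [DecidableEq V] (G : SimpleGraph V) [DecidableRel G.Adj],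
    G.IsRegularOfDegree 3 → ∀ (c : V → Bool) (j : ℕ), 1 ≤ j → Exm G c j →
      ∀ m m' q p, Apx G c q → Apx G c p → Rm G c q p → Acc G c m q → ¬ Acc G c m' p

/-- C7. -/
def ST_C7 : Prop :=
  ∀ (V : Type) [Fintype V] [DecidableEq V] (G : SimpleGraph V) [DecidableRel G.Adj],
    G.IsRegularOfDegree 3 → ∀ (c : V → Bool) (j : ℕ), 1 ≤ j → Exm G c j →
      ∀ q p x x' n n' u b, Td G c q p x x' n n' → ¬ Apx G c p → G.Adj p u → tS G c u →
        G.Adj u b → b ≠ p → tA G c b → Pm G c b u →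
          (∀ w, ¬ Ch G c q w) ∧ ¬ (tA G c n ∧ tA G c n')

/-- CC: the count. -/
def ST_CC : Prop :=
  ∀ (V : Type) [Fintype V] [DecidableEq V] (G : SimpleGraph V) [DecidableRel G.Adj],
    G.IsRegularOfDegree 3 → ∀ (c : V → Bool) (j : ℕ), 1 ≤ j → Exm G c j →
      Ta G c ≤ (Dd G c).card + (Q0 G c).card

/-- THEOREM C. -/
def ST_THC : Prop :=
  ∀ (V : Type) [Fintype V] [DecidableEq V] (G : SimpleGraph V) [DecidableRel G.Adj],
    G.IsRegularOfDegree 3 → ∀ (c : V → Bool) (j : ℕ), 1 ≤ j → Opt G c j →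
      ∃ c', Exm G c' j ∧ Opt G c' j ∧ 6 * j ≤ (Fr G c').card

/-! ### basic facts -/

section basic

variable {V : Type} [Fintype V] [DecidableEq V] {G : SimpleGraph V} [DecidableRel G.Adj]
  {c : V → Bool}

theorem n3_23 {v x y z : V} (h : N3 G v x y z) : N3 G v x z y :=
  ⟨fun w => (h.nb w).trans (by tauto), h.xz, h.xy, h.yz.symm⟩

theorem n3_12 {v x y z : V} (h : N3 G v x y z) : N3 G v y x z :=
  ⟨fun w => (h.nb w).trans (by tauto), h.xy.symm, h.yz, h.xz⟩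

theorem n3_13 {v x y z : V} (h : N3 G v x y z) : N3 G v z y x :=
  ⟨fun w => (h.nb w).trans (by tauto), h.yz.symm, h.xz.symm, h.xy.symm⟩

/-- a list of neighbours beginning with a given one -/
theorem n3_of (hG : G.IsRegularOfDegree 3) {v x : V} (h : G.Adj v x) : ∃ y z, N3 G v x y z := by
  obtain ⟨a, b, d, h1, h2, h3, nb⟩ := nb_three G hG v
  rcases (nb x).1 h with h4 | h4 | h4
  · subst h4
    exact ⟨b, d, nb, h1, h2, h3⟩
  · subst h4
    exact ⟨a, d, fun w => (nb w).trans (by tauto), h1.symm, h3, h2⟩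
  · subst h4
    exact ⟨a, b, fun w => (nb w).trans (by tauto), h2.symm, h3.symm, h1⟩

theorem n3_of2 (hG : G.IsRegularOfDegree 3) {v x y : V} (h : G.Adj v x) (h' : G.Adj v y)
    (hne : x ≠ y) : ∃ z, N3 G v x y z := by
  obtain ⟨a, b, h3⟩ := n3_of hG h
  rcases (h3.nb y).1 h' with e | e | e
  · exact absurd e.symm hne
  · subst e
    exact ⟨b, h3⟩
  · subst e
    exact ⟨a, n3_23 h3⟩

theorem Td.swap {q p x x' n n' : V} (h : Td G c q p x x' n n') : Td G c q p x' x n' n :=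
  ⟨h.cq, h.cp, h.cx', h.cx, h.cn', h.cn, n3_23 h.nq, h.nx', h.nx⟩

theorem Td.rqp {q p x x' n n' : V} (h : Td G c q p x x' n n') : Rm G c q p :=
  ⟨(h.nq.nb p).2 (by simp), by rw [h.cq, h.cp]⟩

theorem Td.rxx {q p x x' n n' : V} (h : Td G c q p x x' n n') : Rm G c x x' :=
  ⟨(h.nx.nb x').2 (by simp), by rw [h.cx, h.cx']⟩

theorem Td.tp (hm : ∀ v, mu G c v ≤ 1) {q p x x' n n' : V} (h : Td G c q p x x' n n') :
    Tp G c q x x' :=
  ⟨⟨h.cq, mu_of_rm hm h.rqp⟩, (h.nq.nb x).2 (by simp), (h.nq.nb x').2 (by simp), h.rxx, h.cx⟩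

theorem Td.apx (hm : ∀ v, mu G c v ≤ 1) {q p x x' n n' : V} (h : Td G c q p x x' n n') :
    Apx G c q := ⟨x, x', h.tp hm⟩

/-- the data of a Theta -/
theorem td_of (hG : G.IsRegularOfDegree 3) (hm : ∀ v, mu G c v ≤ 1) {q s s' : V}
    (h : Tp G c q s s') : ∃ p n n', Td G c q p s s' n n' := by
  obtain ⟨hq, h1, h2, h3, cs⟩ := h
  have cs' : c s' = false := by rw [h3.2, cs]
  obtain ⟨p, hp⟩ := exists_mate hq.2
  have cp : c p = true := by rw [hp.2, hq.1]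
  have ps : p ≠ s := (ne_col cs cp).symm
  have ps' : p ≠ s' := (ne_col cs' cp).symm
  obtain ⟨z, hz⟩ := n3_of2 hG h1 h2 h3.ne
  have hpz : p = z := by
    rcases (hz.nb p).1 hp.1 with e | e | e
    · exact absurd e ps
    · exact absurd e ps'
    · exact e
  subst hpz
  have nq : N3 G q p s s' := n3_23 (n3_13 hz)
  have qs' : q ≠ s' := (ne_col cs' hq.1).symm
  have qs : q ≠ s := (ne_col cs hq.1).symm
  obtain ⟨n, hn⟩ := n3_of2 hG h1.symm h3.1 qs'
  obtain ⟨n', hn'⟩ := n3_of2 hG h2.symm h3.1.symm qs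
  refine ⟨p, n, n', hq.1, cp, cs, cs', ?_, ?_, nq, hn, hn'⟩
  · cases hc : c n
    · exact absurd (rm_uniq (hm s) h3 ⟨(hn.nb n).2 (by simp), by rw [hc, cs]⟩) hn.yz
    · rfl
  · cases hc : c n'
    · exact absurd (rm_uniq (hm s') h3.symm ⟨(hn'.nb n').2 (by simp), by rw [hc, cs']⟩) hn'.yz
    · rfl

end basic

end Pool.Agent.Helper96.MC
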