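import Mathlib
import Pool.Agent.Helper96.MC.CSt

/-!
MP_4042d8_co, section C: the moves M1 and M2.
-/

set_option autoImplicit false
set_option linter.unusedSectionVars false
set_option linter.unusedSimpArgs false
set_option linter.unusedVariables false

namespace Pool.Agent.Helper96.MC

open Pool.Agent.Helper27.MC
open Pool.Agent.Helper51.MC Pool.Agent.Helper88.MC Pool.Agent.Helper64.MC
open Pool.Agent.Helper91.MC Pool.Agent.Helper42.MC

variable {V : Type} [Fintype V] [DecidableEq V] {G : SimpleGraph V} [DecidableRel G.Adj]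
  {c : V → Bool}

section swap

variable {a a1 a2 b b1 b2 : V}

theorem Sw.ab (h : Sw G c a a1 a2 b b1 b2) : a ≠ b := (ne_col h.cb h.ca).symm

theorem Sw.ra (h : Sw G c a a1 a2 b b1 b2) (hm : ∀ v, mu G c v ≤ 1) {w : V} (hw : Rm G c w a) :
    w = a1 := rm_uniq (hm a) hw.symm h.raa1

theorem Sw.rb (h : Sw G c a a1 a2 b b1 b2) (hm : ∀ v, mu G c v ≤ 1) {w : V} (hw : Rm G c w b) :
    w = b1 := rm_uniq (hm b) hw.symm h.rbb1

theorem Sw.ra1 (h : Sw G c a a1 a2 b b1 b2) (hm : ∀ v, mu G c v ≤ 1) {w : V}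
    (hw : Rm G c a1 w) : w = a := rm_uniq (hm a1) hw h.raa1.symm

theorem Sw.rb1 (h : Sw G c a a1 a2 b b1 b2) (hm : ∀ v, mu G c v ≤ 1) {w : V}
    (hw : Rm G c b1 w) : w = b := rm_uniq (hm b1) hw h.rbb1.symm

theorem flp2 (c : V → Bool) {a b v : V} (h1 : v ≠ a) (h2 : v ≠ b) : flp c {a, b} v = c v :=
  flp_not (by simp [h1, h2])

theorem flp2a (c : V → Bool) (a b : V) : flp c {a, b} a = !(c a) := flp_in (by simp)

theorem flp2b (c : V → Bool) (a b : V) : flp c {a, b} b = !(c b) := flp_in (by simp)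

theorem Sw.opt (hG : G.IsRegularOfDegree 3) (h : Sw G c a a1 a2 b b1 b2) {j : ℕ}
    (hO : Opt G c j) : Opt G (flp c {a, b}) j := by
  have e : ({a, b} : Finset V) = [a, b].toFinset := by simp
  have hn : [a, b].Nodup := by simp [h.ab]
  refine (ZERO V G hG c j hO).1 {a, b} ?_ ?_ (h.ml hO.mu1)
  · rw [e, cost_list c _ hn]
    simp only [cl_cons, cl_nil, List.map_cons, List.map_nil, List.sum_cons, List.sum_nil,
      mu_of_rm hO.mu1 h.raa1, mu_of_rm hO.mu1 h.rbb1]
    have e1 : sf G c a b = 1 := sf_adj ((h.na b).2 (by simp)) (by rw [h.ca, h.cb]; decide)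
    rw [e1]
    norm_num
  · rw [e, dd_list c _ hn]
    simp [dl_cons, dl_nil, h.ca, h.cb]

theorem Sw.yQ (h : Sw G c a a1 a2 b b1 b2) (hm : ∀ v, mu G c v ≤ 1) (v : V) :
    tQ G (flp c {a, b}) v ↔ (tQ G c v ∧ v ≠ a ∧ v ≠ a1) ∨ v = b ∨ v = b2 := by
  rw [tQ_iff (h.ml hm), tQ_iff hm]
  constructor
  · rintro ⟨h1, w, hw⟩
    rcases (h.rm v w).1 hw with ⟨h2, h3, h4, h5, h6⟩ | ⟨rfl, rfl⟩ | ⟨rfl, rfl⟩ | ⟨rfl, rfl⟩ |
      ⟨rfl, rfl⟩
    · rw [flp2 c h3 h4] at h1
      refine Or.inl ⟨⟨h1, w, h2⟩, h3, ?_⟩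
      rintro rfl
      exact h5 (h.ra1 hm h2)
    · rw [flp2a, h.ca] at h1
      cases h1
    · rw [flp2 c (ne_col h.ca2 h.ca) h.a2b, h.ca2] at h1
      cases h1
    · exact Or.inr (Or.inl rfl)
    · exact Or.inr (Or.inr rfl)
  · rintro (⟨⟨h1, w, hw⟩, h2, h3⟩ | h1 | h1)
    · have h4 : v ≠ b := (ne_col h.cb h1).symm
      refine ⟨by rw [flp2 c h2 h4, h1], w, (h.rm v w).2 (Or.inl ⟨hw, h2, h4, ?_, ?_⟩)⟩
      · rintro rfl
        exact h3 (h.ra hm hw)
      · rintro rfl
        rw [hw.2.symm, h.cb] at h1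
        cases h1
    · rw [h1, flp2b, h.cb]
      exact ⟨rfl, b2, (h.rm b b2).2 (by simp)⟩
    · rw [h1, flp2 c h.b2a (ne_col h.cb h.cb2).symm, h.cb2]
      exact ⟨rfl, b, (h.rm b2 b).2 (by simp)⟩

theorem Sw.yS (h : Sw G c a a1 a2 b b1 b2) (hm : ∀ v, mu G c v ≤ 1) (v : V) :
    tS G (flp c {a, b}) v ↔ (tS G c v ∧ v ≠ b ∧ v ≠ b1) ∨ v = a ∨ v = a2 := by
  rw [tS_iff (h.ml hm), tS_iff hm]
  constructor
  · rintro ⟨h1, w, hw⟩
    rcases (h.rm v w).1 hw with ⟨h2, h3, h4, h5, h6⟩ | ⟨rfl, rfl⟩ | ⟨rfl, rfl⟩ | ⟨rfl, rfl⟩ |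
      ⟨rfl, rfl⟩
    · rw [flp2 c h3 h4] at h1
      refine Or.inl ⟨⟨h1, w, h2⟩, h4, ?_⟩
      rintro rfl
      exact h6 (h.rb1 hm h2)
    · exact Or.inr (Or.inl rfl)
    · exact Or.inr (Or.inr rfl)
    · rw [flp2b, h.cb] at h1
      cases h1
    · rw [flp2 c h.b2a (ne_col h.cb h.cb2).symm, h.cb2] at h1
      cases h1
  · rintro (⟨⟨h1, w, hw⟩, h2, h3⟩ | h1 | h1)
    · have h4 : v ≠ a := ne_col h1 h.ca
      refine ⟨by rw [flp2 c h4 h2, h1], w, (h.rm v w).2 (Or.inl ⟨hw, h4, h2, ?_, ?_⟩)⟩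
      · rintro rfl
        rw [hw.2.symm, h.ca] at h1
        cases h1
      · rintro rfl
        exact h3 (h.rb hm hw)
    · rw [h1, flp2a, h.ca]
      exact ⟨rfl, a2, (h.rm a a2).2 (by simp)⟩
    · rw [h1, flp2 c (ne_col h.ca2 h.ca) h.a2b, h.ca2]
      exact ⟨rfl, a, (h.rm a2 a).2 (by simp)⟩

theorem Sw.yA (h : Sw G c a a1 a2 b b1 b2) (hm : ∀ v, mu G c v ≤ 1) (v : V) :
    tA G (flp c {a, b}) v ↔ (tA G c v ∧ v ≠ b2) ∨ (v = a1 ∧ a1 ≠ b2) := by
  have k1 : a1 ≠ a := h.raa1.ne.symm
  have k2 : a1 ≠ b := (ne_col h.cb h.ca1).symm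
  constructor
  · intro h1
    have h2 : ¬ tQ G (flp c {a, b}) v := tA_not_tQ h1
    rw [h.yQ hm] at h2
    push Not at h2
    have h3 : v ≠ a := by
      rintro rfl
      have := h1.1
      rw [flp2a, h.ca] at this
      cases this
    have h4 := h1.1
    rw [flp2 c h3 h2.2.1] at h4
    rcases tA_or_tQ hm h4 with h5 | h5
    · exact Or.inl ⟨h5, h2.2.2⟩
    · refine Or.inr ?_
      have h6 := h2.1 h5 h3
      exact ⟨h6, h6 ▸ h2.2.2⟩
  · intro h1
    have h0 : v ≠ a ∧ v ≠ b ∧ c v = true := by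
      rcases h1 with ⟨h1, h2⟩ | ⟨rfl, h2⟩
      · refine ⟨?_, (ne_col h.cb h1.1).symm, h1.1⟩
        rintro rfl
        exact tA_not_tQ h1 ((tQ_iff hm).2 ⟨h.ca, a1, h.raa1⟩)
      · exact ⟨k1, k2, h.ca1⟩
    have h4 : flp c {a, b} v = true := by rw [flp2 c h0.1 h0.2.1, h0.2.2]
    rcases tA_or_tQ (h.ml hm) h4 with h5 | h5
    · exact h5
    · exfalso
      rw [h.yQ hm] at h5
      rcases h5 with ⟨h5, h6, h7⟩ | h5 | h5
      · rcases h1 with ⟨h1, h2⟩ | ⟨h1, h2⟩
        · exact tA_not_tQ h1 h5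
        · exact h7 h1
      · exact h0.2.1 h5
      · rcases h1 with ⟨h1, h2⟩ | ⟨h1, h2⟩
        · exact h2 h5
        · exact h2 (h1.symm.trans h5)

theorem Sw.tp (h : Sw G c a a1 a2 b b1 b2) (hm : ∀ v, mu G c v ≤ 1) {v s s' : V} (h1 : v ≠ a)
    (h2 : v ≠ a1) (h3 : v ≠ b) (h4 : v ≠ b2) :
    Tp G (flp c {a, b}) v s s' ↔ Tp G c v s s' := by
  unfold Tp
  rw [h.yQ hm]
  have nv : ∀ w, c v = true → G.Adj v w → w ≠ a ∨ c w = true := by
    intro w _ _
    by_cases e : w = a
    · right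
      rw [e, h.ca]
    · exact Or.inl e
  have nvb : c v = true → ¬ G.Adj v b := by
    intro cv hv
    rcases (h.nb v).1 hv.symm with e | e | e
    · exact h1 e
    · rw [e, h.cb1] at cv
      cases cv
    · exact h4 e
  have nva : c v = true → ¬ G.Adj v a := by
    intro cv hv
    rcases (h.na v).1 hv.symm with e | e | e
    · exact h3 e
    · exact h2 e
    · rw [e, h.ca2] at cv
      cases cv
  constructor
  · rintro ⟨e1 | e1 | e1, e2, e3, e4, e5⟩
    · have cv := e1.1.1
      have sa : s ≠ a := by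
        rintro rfl
        exact nva cv e2
      have sb : s ≠ b := by
        rintro rfl
        exact nvb cv e2
      refine ⟨e1.1, e2, e3, ?_, ?_⟩
      · rcases (h.rm s s').1 e4 with e6 | ⟨e6, e7⟩ | ⟨e6, e7⟩ | ⟨e6, e7⟩ | ⟨e6, e7⟩
        · exact e6.1
        · exact absurd e6 sa
        · rw [e7] at e3
          exact absurd e3 (nva cv)
        · exact absurd e6 sb
        · rw [e7] at e3
          exact absurd e3 (nvb cv)
      · rw [flp2 c sa sb] at e5
        exact e5
    · exact absurd e1 h3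
    · exact absurd e1 h4
  · rintro ⟨e1, e2, e3, e4, e5⟩
    have cv := e1.1
    have sa : s ≠ a := by
      rintro rfl
      exact nva cv e2
    have sb : s ≠ b := by
      rintro rfl
      exact nvb cv e2
    have sa' : s' ≠ a := by
      rintro rfl
      exact nva cv e3
    have sb' : s' ≠ b := by
      rintro rfl
      exact nvb cv e3
    exact ⟨Or.inl ⟨e1, h1, h2⟩, e2, e3, (h.rm s s').2 (Or.inl ⟨e4, sa, sb, sa', sb'⟩),
      by rw [flp2 c sa sb]; exact e5⟩

theorem Sw.apx (h : Sw G c a a1 a2 b b1 b2) (hm : ∀ v, mu G c v ≤ 1) {v : V} (h1 : v ≠ a)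
    (h2 : v ≠ a1) (h3 : v ≠ b) (h4 : v ≠ b2) :
    Apx G (flp c {a, b}) v ↔ Apx G c v := by
  unfold Apx
  constructor
  · rintro ⟨s, s', hs⟩
    exact ⟨s, s', (h.tp hm h1 h2 h3 h4).1 hs⟩
  · rintro ⟨s, s', hs⟩
    exact ⟨s, s', (h.tp hm h1 h2 h3 h4).2 hs⟩

/-- the vertex `b2` after a swap -/
theorem Sw.apb (h : Sw G c a a1 a2 b b1 b2) (hm : ∀ v, mu G c v ≤ 1)
    (hG : G.IsRegularOfDegree 3) (h0 : b2 ≠ a1) :
    Apx G (flp c {a, b}) b2 ↔ Pm G c b2 b := by
  have hA : mu G c b2 = 0 := by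
    rcases h.h2 with e | e
    · exact absurd e h0
    · exact e
  have cf : ∀ w, G.Adj b2 w → c w = false := by
    intro w hw
    cases hc : c w
    · rfl
    · exact absurd ⟨hw, by rw [hc, h.cb2]⟩ (nomate hA w)
  have nba : ¬ G.Adj b2 a := by
    intro hv
    have := cf a hv
    rw [h.ca] at this
    cases this
  have adb : G.Adj b2 b := ((h.nb b2).2 (by simp)).symm
  constructor
  · rintro ⟨s, s', e1, e2, e3, e4, e5⟩
    have sb : s ≠ b := by
      rintro rfl
      rw [flp2b, h.cb] at e5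
      cases e5
    have e5' : flp c {a, b} s' = false := by rw [e4.2, e5]
    have sb' : s' ≠ b := by
      rintro rfl
      rw [flp2b, h.cb] at e5'
      cases e5'
    obtain ⟨z, hz⟩ := n3_of2 hG adb e2 sb.symm
    have hs' : s' = z := by
      rcases (hz.nb s').1 e3 with e | e | e
      · exact absurd e sb'
      · exact absurd e e4.ne.symm
      · exact e
    subst hs'
    refine ⟨s, s', hz, ?_⟩
    rcases (h.rm s s').1 e4 with e6 | ⟨e6, e7⟩ | ⟨e6, e7⟩ | ⟨e6, e7⟩ | ⟨e6, e7⟩
    · exact e6.1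
    · rw [e6] at e2
      exact absurd e2 nba
    · rw [e7] at e3
      exact absurd e3 nba
    · exact absurd e6 sb
    · exact absurd e7 sb'
  · rintro ⟨k, k', h5, h6⟩
    have ak : G.Adj b2 k := (h5.nb k).2 (by simp)
    have ak' : G.Adj b2 k' := (h5.nb k').2 (by simp)
    have ka : k ≠ a := by
      rintro rfl
      exact nba ak
    have ka' : k' ≠ a := by
      rintro rfl
      exact nba ak'
    refine ⟨k, k', (h.yQ hm b2).2 (by simp), ak, ak',
      (h.rm k k').2 (Or.inl ⟨h6, ka, h5.xy.symm, ka', h5.xz.symm⟩), ?_⟩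
    rw [flp2 c ka h5.xy.symm]
    exact cf k ak

open Classical in
/-- `Kp` after a swap -/
theorem Sw.kp (h : Sw G c a a1 a2 b b1 b2) (hm : ∀ v, mu G c v ≤ 1) (h0 : b2 ≠ a1)
    (hap : Apx G c a1 ∨ Apx G c a) :
    Kp G (flp c {a, b}) ≤ Kp G c ∧
      (¬ Apx G (flp c {a, b}) b → ¬ Apx G (flp c {a, b}) b2 → Kp G (flp c {a, b}) < Kp G c) := by
  unfold Kp
  set K := Finset.univ.filter (fun v => c v = true ∧ ∃ w, Rm G c v w ∧ (Apx G c v ∨ Apx G c w))
    with hK
  set K1 := Finset.univ.filter (fun v => flp c {a, b} v = true ∧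
    ∃ w, Rm G (flp c {a, b}) v w ∧ (Apx G (flp c {a, b}) v ∨ Apx G (flp c {a, b}) w)) with hK1
  have k1 : a1 ≠ a := h.raa1.ne.symm
  have hsub : ({a, a1} : Finset V) ⊆ K := by
    intro x hx
    simp only [Finset.mem_insert, Finset.mem_singleton] at hx
    simp only [hK, Finset.mem_filter, Finset.mem_univ, true_and]
    rcases hx with rfl | rfl
    · exact ⟨h.ca, a1, h.raa1, hap.symm⟩
    · exact ⟨h.ca1, a, h.raa1.symm, hap⟩
  have hc1 : (K \ {a, a1}).card + 2 = K.card := by
    rw [← Finset.card_sdiff_add_card_eq_card hsub, Finset.card_pair k1.symm]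
  have key : ∀ v, v ∈ K1 → v ≠ b → v ≠ b2 → v ∈ K \ {a, a1} := by
    intro v hv h3 h4
    simp only [hK1, Finset.mem_filter, Finset.mem_univ, true_and] at hv
    obtain ⟨e1, w, e2, e3⟩ := hv
    have h1 : v ≠ a := by
      rintro rfl
      rw [flp2a, h.ca] at e1
      cases e1
    have cv : c v = true := by rw [flp2 c h1 h3] at e1; exact e1
    rcases (h.rm v w).1 e2 with ⟨e4, e5, e6, e7, e8⟩ | ⟨e4, e5⟩ | ⟨e4, e5⟩ | ⟨e4, e5⟩ | ⟨e4, e5⟩
    · have h2 : v ≠ a1 := by
        rintro rfl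
        exact e7 (h.ra1 hm e4)
      have w1 : w ≠ a1 := by
        rintro rfl
        exact e5 (h.ra1 hm e4.symm)
      have w2 : w ≠ b2 := by
        rintro rfl
        rcases h.h2 with e | e
        · exact h0 e
        · exact nomate e v e4.symm
      simp only [hK, Finset.mem_sdiff, Finset.mem_filter, Finset.mem_univ, true_and,
        Finset.mem_insert, Finset.mem_singleton, not_or]
      refine ⟨⟨cv, w, e4, ?_⟩, h1, h2⟩
      rcases e3 with e3 | e3
      · exact Or.inl ((h.apx hm h1 h2 h3 h4).1 e3)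
      · exact Or.inr ((h.apx hm e7 w1 e8 w2).1 e3)
    · exact absurd e4 h1
    · rw [e4, h.ca2] at cv
      cases cv
    · exact absurd e4 h3
    · exact absurd e4 h4
  constructor
  · have : K1 ⊆ (K \ {a, a1}) ∪ {b, b2} := by
      intro v hv
      by_cases h3 : v = b
      · simp [h3]
      · by_cases h4 : v = b2
        · simp [h4]
        · exact Finset.mem_union_left _ (key v hv h3 h4)
    have h5 := Finset.card_le_card this
    have h6 := Finset.card_union_le (K \ {a, a1}) ({b, b2} : Finset V)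
    have h7 : ({b, b2} : Finset V).card ≤ 2 := Finset.card_le_two
    omega
  · intro n1 n2
    have : K1 ⊆ (K \ {a, a1}) := by
      intro v hv
      refine key v hv ?_ ?_
      · rintro rfl
        simp only [hK1, Finset.mem_filter, Finset.mem_univ, true_and] at hv
        obtain ⟨e1, w, e2, e3⟩ := hv
        have : w = b2 := rm_uniq (h.ml hm v) e2 ((h.rm v b2).2 (by simp))
        subst this
        rcases e3 with e3 | e3
        · exact n1 e3
        · exact n2 e3
      · rintro rfl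
        simp only [hK1, Finset.mem_filter, Finset.mem_univ, true_and] at hv
        obtain ⟨e1, w, e2, e3⟩ := hv
        have : w = b := rm_uniq (h.ml hm v) e2 ((h.rm v b).2 (by simp))
        subst this
        rcases e3 with e3 | e3
        · exact n2 e3
        · exact n1 e3
    have h5 := Finset.card_le_card this
    omega

end swap

theorem apx_tQ {v : V} (h : Apx G c v) : tQ G c v := by
  obtain ⟨s, s', h⟩ := h
  exact h.1

theorem td_sw {q p x x' n n' : V} (T : Td G c q p x x' n n') (hA : tA G c n) :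
    Sw G c q p x' x x' n :=
  ⟨T.cq, T.cx, T.cp, T.cx', T.cx', T.cn, fun w => (T.nq.nb w).trans (by tauto), T.nx.nb,
    T.rxx.ne.symm, T.nx.xz.symm, Or.inl rfl, Or.inr hA.2⟩

/-- row C_M1 -/
theorem M1 : ST_M1 := by
  intro V _ _ G _ hG c hm q p x x' n n' T hA
  have S := td_sw T hA
  have hpn : n ≠ p := by
    rintro rfl
    exact tA_not_tQ hA ((tQ_iff hm).2 ⟨T.cp, q, T.rqp.symm⟩)
  have yA : ∀ v, tA G (flp c {q, x}) v ↔ (tA G c v ∧ v ≠ n) ∨ v = p := by
    intro v
    rw [S.yA hm]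
    constructor
    · rintro (h | h)
      · exact Or.inl h
      · exact Or.inr h.1
    · rintro (h | h)
      · exact Or.inl h
      · exact Or.inr ⟨h, hpn.symm⟩
  have td : Td G (flp c {q, x}) x n q x' p n' := by
    have e1 : x' ≠ q := ne_col T.cx' T.cq
    have e2 : x' ≠ x := T.rxx.ne.symm
    have e3 : n ≠ x := (ne_col T.cx T.cn).symm
    have e4 : p ≠ q := T.rqp.ne.symm
    have e5 : p ≠ x := (ne_col T.cx T.cp).symm
    have e6 : n' ≠ x := (ne_col T.cx T.cn').symm
    have e7 : n' ≠ q := T.nx'.xz.symm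
    refine ⟨?_, ?_, ?_, ?_, ?_, ?_, n3_23 (n3_13 T.nx), n3_23 (n3_12 T.nq), n3_12 T.nx'⟩
    · rw [flp2b, T.cx]
      rfl
    · rw [flp2 c T.nx.xz.symm e3, T.cn]
    · rw [flp2a, T.cq]
      rfl
    · rw [flp2 c e1 e2, T.cx']
    · rw [flp2 c e4 e5, T.cp]
    · rw [flp2 c e7 e6, T.cn']
  refine ⟨S.ml hm, fun j hO => S.opt hG hO, S.rm, fun v h1 h2 => flp2 c h1 h2, ?_, ?_, yA,
    S.yQ hm, ?_, td, fun v s s' h1 h2 h3 h4 => S.tp hm h1 h2 h3 h4, ?_,
    (S.kp hm hpn (Or.inr (T.apx hm))).1⟩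
  · rw [flp2a, T.cq]
    rfl
  · rw [flp2b, T.cx]
    rfl
  · intro v
    rw [S.yS hm]
    have hx' : tS G c x' := (tS_iff hm).2 ⟨T.cx', x, T.rxx.symm⟩
    have hne : x' ≠ x := T.rxx.ne.symm
    constructor
    · rintro (⟨h1, h2, h3⟩ | h1 | h1)
      · exact Or.inl ⟨h1, h2⟩
      · exact Or.inr h1
      · exact Or.inl ⟨h1 ▸ hx', h1 ▸ hne⟩
    · rintro (⟨h1, h2⟩ | h1)
      · by_cases h3 : v = x'
        · exact Or.inr (Or.inr h3)
        · exact Or.inl ⟨h1, h2, h3⟩
      · exact Or.inr (Or.inl h1)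
  · intro v
    have hpA : ¬ Apx G (flp c {q, x}) p := fun h => tA_not_tQ ((yA p).2 (Or.inr rfl)) (apx_tQ h)
    have hqA : ¬ Apx G (flp c {q, x}) q := by
      intro h
      have := (apx_tQ h).1
      rw [flp2a, T.cq] at this
      cases this
    have hxc : ¬ Apx G c x := by
      intro h
      have := (apx_tQ h).1
      rw [T.cx] at this
      cases this
    have hnc : ¬ Apx G c n := fun h => tA_not_tQ hA (apx_tQ h)
    have hxA : Apx G (flp c {q, x}) x := td.apx (S.ml hm)
    have hnA := S.apb hm hG hpn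
    by_cases h1 : v = q
    · subst h1
      constructor
      · exact fun h => absurd h hqA
      · rintro (h | h | h)
        · exact absurd rfl h.2.1
        · exact absurd h (ne_col T.cx T.cq).symm
        · exact absurd h.1 T.nx.xz
    · by_cases h2 : v = p
      · subst h2
        constructor
        · exact fun h => absurd h hpA
        · rintro (h | h | h)
          · exact absurd rfl h.2.2
          · exact absurd h (ne_col T.cx T.cp).symm
          · exact absurd h.1 hpn.symm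
      · by_cases h3 : v = x
        · subst h3
          exact ⟨fun _ => Or.inr (Or.inl rfl), fun _ => hxA⟩
        · by_cases h4 : v = n
          · subst h4
            rw [hnA]
            constructor
            · exact fun h => Or.inr (Or.inr ⟨rfl, h⟩)
            · rintro (h | h | h)
              · exact absurd h.1 hnc
              · exact absurd h h3
              · exact h.2
          · rw [S.apx hm h1 h2 h3 h4]
            constructor
            · exact fun h => Or.inl ⟨h, h1, h2⟩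
            · rintro (h | h | h)
              · exact h.1
              · exact absurd h h3
              · exact absurd h.1 h4

/-- row C_M2 -/
theorem M2 : ST_M2 := by
  intro V _ _ G _ hG c j hj hO q p u u' z b hq hqp hp Np cu Nu cu' hb
  have hm := hO.mu1
  have cq : c q = true := (apx_tQ hq).1
  have cp : c p = true := by rw [hqp.2, cq]
  have tp : tQ G c p := (tQ_iff hm).2 ⟨cp, q, hqp.symm⟩
  have rpq : Rm G c p q := hqp.symm
  have ruu : Rm G c u u' := ⟨(Nu.nb u').2 (by simp), by rw [cu, cu']⟩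
  have tu : tS G c u := (tS_iff hm).2 ⟨cu, u', ruu⟩
  have apu : G.Adj p u := (Np.nb u).2 (by simp)
  have apz : G.Adj p z := (Np.nb z).2 (by simp)
  have cz : c z = false := by
    cases hc : c z
    · rfl
    · exact absurd (rm_uniq (hm p) ⟨apz, by rw [hc, cp]⟩ rpq) Np.xz.symm
  have tz : tB G c z := by
    rcases tB_or_tS hm cz with h | h
    · exact h
    · exfalso
      have := F1 hG hj hO tp tu h apu apz Np.yz
      exact hp ⟨u, z, tp, apu, apz, this, cu⟩
  refine ⟨tz, ?_⟩
  have S : Sw G c p q z u u' b :=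
    ⟨cp, cu, cq, cz, cu', hb.1, fun w => (Np.nb w).trans (by tauto), Nu.nb, Np.yz.symm,
      Nu.xz.symm, Or.inr tz.2, Or.inr hb.2⟩
  have hbq : b ≠ q := by
    rintro rfl
    exact tA_not_tQ hb (apx_tQ hq)
  have yA : ∀ v, tA G (flp c {p, u}) v ↔ (tA G c v ∧ v ≠ b) ∨ v = q := by
    intro v
    rw [S.yA hm]
    constructor
    · rintro (h | h)
      · exact Or.inl h
      · exact Or.inr h.1
    · rintro (h | h)
      · exact Or.inl h
      · exact Or.inr ⟨h, hbq.symm⟩
  have hpA : ¬ Apx G (flp c {p, u}) p := by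
    intro h
    have := (apx_tQ h).1
    rw [flp2a, cp] at this
    cases this
  have hqA : ¬ Apx G (flp c {p, u}) q := fun h => tA_not_tQ ((yA q).2 (Or.inr rfl)) (apx_tQ h)
  have cb1 : flp c {p, u} b = true := by
    rw [flp2 c Nu.xz.symm (ne_col cu hb.1).symm, hb.1]
  have huA : ¬ Apx G (flp c {p, u}) u := by
    rintro ⟨s, s', h1, h2, h3, h4, h5⟩
    have h5' : flp c {p, u} s' = false := by rw [h4.2, h5]
    have hpz : Rm G (flp c {p, u}) p z := (S.rm p z).2 (by simp)
    have hzu : z ≠ u' := by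
      rintro rfl
      exact nomate tz.2 u ruu.symm
    rcases (Nu.nb s).1 h2 with e | e | e
    · subst e
      rcases (Nu.nb s').1 h3 with e' | e' | e'
      · exact h4.ne e'.symm
      · subst e'
        exact hzu (rm_uniq (S.ml hm s) hpz h4)
      · rw [e', cb1] at h5'
        cases h5'
    · subst e
      rcases (Nu.nb s').1 h3 with e' | e' | e'
      · subst e'
        exact hzu (rm_uniq (S.ml hm s') hpz h4.symm)
      · exact h4.ne e'.symm
      · rw [e', cb1] at h5'
        cases h5'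
    · rw [e, cb1] at h5
      cases h5
  have hbA := S.apb hm hG hbq
  have hkp := S.kp hm hbq (Or.inl hq)
  refine ⟨S.ml hm, fun j hO => S.opt hG hO, S.rm, fun v h1 h2 => flp2 c h1 h2, ?_, ?_, yA,
    S.yQ hm, S.yS hm, fun v s s' h1 h2 h3 h4 => S.tp hm h1 h2 h3 h4, ?_, fun _ => hkp.1,
    fun h => hkp.2 huA (fun h' => h (hbA.1 h'))⟩
  · rw [flp2a, cp]
    rfl
  · rw [flp2b, cu]
    rfl
  · intro v
    have huc : ¬ Apx G c u := by
      intro h
      have := (apx_tQ h).1
      rw [cu] at this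
      cases this
    have hbc : ¬ Apx G c b := fun h => tA_not_tQ hb (apx_tQ h)
    by_cases h1 : v = p
    · subst h1
      constructor
      · exact fun h => absurd h hpA
      · rintro (h | h)
        · exact absurd h.1 hp
        · exact absurd h.1 Nu.xz
    · by_cases h2 : v = q
      · subst h2
        constructor
        · exact fun h => absurd h hqA
        · rintro (h | h)
          · exact absurd rfl h.2
          · exact absurd h.1 hbq.symm
      · by_cases h3 : v = u
        · subst h3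
          constructor
          · exact fun h => absurd h huA
          · rintro (h | h)
            · exact absurd h.1 huc
            · exact absurd h.1 (ne_col cu hb.1)
        · by_cases h4 : v = b
          · subst h4
            rw [hbA]
            constructor
            · exact fun h => Or.inr ⟨rfl, h⟩
            · rintro (h | h)
              · exact absurd h.1 hbc
              · exact h.2
          · rw [S.apx hm h1 h2 h3 h4]
            constructor
            · exact fun h => Or.inl ⟨h, h2⟩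
            · rintro (h | h)
              · exact h.1
              · exact absurd h.1 h4

end Pool.Agent.Helper96.MC
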