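import Mathlib
import Pool.Agent.Helper96.MC.M12

/-!
MP_4042d8_co, section C: rows C2 and C3.
-/

set_option autoImplicit false
set_option linter.unusedSectionVars false
set_option linter.unusedSimpArgs false
set_option linter.unusedVariables false

namespace Pool.Agent.Helper96.MC

open Pool.Agent.Helper27.MC
open Pool.Agent.Helper51.MC Pool.Agent.Helper88.MC Pool.Agent.Helper64.MC
open Pool.Agent.Helper91.MC Pool.Agent.Helper42.MC

/-- the third neighbour -/
theorem n3_third {V : Type} {G : SimpleGraph V} {v x y z w : V} (h : N3 G v x y z)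
    (hw : G.Adj v w) (h1 : w ≠ x) (h2 : w ≠ y) : w = z := by
  rcases (h.nb w).1 hw with e | e | e
  · exact absurd e h1
  · exact absurd e h2
  · exact e

/-- row C_C2 -/
theorem C2 : ST_C2 := by
  intro V _ _ G _ hG c j hj hK q p u b hq hqp hp apu hu aub hbp cb
  have hm := hK.1.mu1
  rcases tA_or_tQ hm cb with hb | hb
  · refine Or.inr ⟨hb, ?_⟩
    by_contra hn
    have cq : c q = true := (apx_tQ hq).1
    have cp : c p = true := by rw [hqp.2, cq]
    have hqu : q ≠ u := (ne_col hu.1 cq).symm
    obtain ⟨z, Np⟩ := n3_of2 hG hqp.symm.1 apu hqu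
    obtain ⟨u', ruu⟩ := exists_mate hu.2
    have cu' : c u' = false := by rw [ruu.2, hu.1]
    have hpu' : p ≠ u' := (ne_col cu' cp).symm
    obtain ⟨b', Nu⟩ := n3_of2 hG apu.symm ruu.1 hpu'
    have hb' : b = b' := n3_third Nu aub hbp (ne_col cu' cb).symm
    subst hb'
    have h2 := (M2 V G hG c j hj hK.1 q p u u' z b hq hqp hp Np hu.1 Nu cu' hb).2
    exact absurd (hK.2 _ (h2.opt j hK.1)) (not_le.2 (h2.kp' hn))
  · exact Or.inl hb

/-- row C_C3, from row C1 -/
theorem C3 (hC1 : ST_C1) : ST_C3 := by
  intro V _ _ G _ hG c j hj hK a s s' y w ha as as' rss asy hya cy hw rwy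
  have hm := hK.1.mu1
  have cs : c s = false := by
    cases hc : c s
    · rfl
    · exact absurd ⟨as, by rw [hc, ha.1]⟩ (nomate ha.2 s)
  have ts : tS G c s := (tS_iff hm).2 ⟨cs, s', rss⟩
  by_cases hy : Apx G c y
  · obtain ⟨r, r', h1, h2, h3, h4, h5⟩ := hy
    have cr' : c r' = false := by rw [h4.2, h5]
    have cw : c w = true := (apx_tQ hw).1
    have hwr : w ≠ r := (ne_col h5 cw).symm
    have hwr' : w ≠ r' := (ne_col cr' cw).symm
    have key : s = r ∨ s = r' := by
      by_contra hn
      push Not at hn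
      obtain ⟨z, hz⟩ := n3_of2 hG h2 h3 h4.ne
      have e1 := n3_third hz asy.symm hn.1 hn.2
      have e2 := n3_third hz rwy.symm.1 hwr hwr'
      have e3 : s = w := e1.trans e2.symm
      exact ne_col cs cw e3
    have ays' : G.Adj y s' := by
      rcases key with e | e
      · subst e
        have := rm_uniq (hm s) rss h4
        rw [this]
        exact h3
      · subst e
        have := rm_uniq (hm s) rss h4.symm
        rw [this]
        exact h2
    obtain ⟨p2, n, n', T⟩ := td_of hG hm ⟨h1, asy.symm, ays', rss, cs⟩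
    have cs' : c s' = false := T.cx'
    have e1 : a = n := n3_third T.nx as.symm hya.symm (ne_col cs' ha.1).symm
    have e2 : a = n' := n3_third T.nx' as'.symm hya.symm (ne_col cs ha.1).symm
    rcases hC1 V G hG c j hj hK y p2 s s' n n' T with e | e
    · have h6 : tQ G c p2 := (tQ_iff hm).2 ⟨T.cp, y, T.rqp.symm⟩
      rw [← e.1, ← e1] at h6
      exact tA_not_tQ ha h6
    · exact e.2.2 (e1.symm.trans e2)
  · rcases C2 V G hG c j hj hK w y s a hw rwy hy asy.symm ts as.symm hya.symm ha.1 with h | h
    · exact tA_not_tQ ha h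
    · obtain ⟨_, k, k', Nk, rk⟩ := h
      rcases (Nk.nb s').1 as' with e | e | e
      · exact rss.ne e.symm
      · subst e
        exact Nk.xz (rm_uniq (hm s') rss.symm rk)
      · subst e
        exact Nk.xy (rm_uniq (hm s') rss.symm rk.symm)

end Pool.Agent.Helper96.MC
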