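import Mathlib
import Pool.Agent.Helper96.MC.C23

/-!
MP_4042d8_co, section C: extremal colourings exist; the number of free vertices.
-/

set_option autoImplicit false
set_option linter.unusedSectionVars false
set_option linter.unusedSimpArgs false
set_option linter.unusedVariables false

namespace Pool.Agent.Helper96.MC

open Pool.Agent.Helper27.MC
open Pool.Agent.Helper51.MC Pool.Agent.Helper88.MC Pool.Agent.Helper64.MC
open Pool.Agent.Helper91.MC Pool.Agent.Helper42.MC

variable {V : Type} [Fintype V] [DecidableEq V] {G : SimpleGraph V} [DecidableRel G.Adj]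
  {c : V → Bool}

/-- extremal colourings exist -/
theorem exm_exists {j : ℕ} (hO : Opt G c j) : ∃ c', Exm G c' j := by
  classical
  obtain ⟨c1, h1, m1⟩ := Finset.exists_min_image
    (Finset.univ.filter (fun c' : V → Bool => Opt G c' j)) (fun c' => Kp G c')
    ⟨c, by simp [hO]⟩
  simp only [Finset.mem_filter, Finset.mem_univ, true_and] at h1 m1
  have k1 : CK G c1 j := ⟨h1, m1⟩
  obtain ⟨c2, h2, m2⟩ := Finset.exists_min_image
    (Finset.univ.filter (fun c' : V → Bool => CK G c' j)) (fun c' => Ta G c')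
    ⟨c1, by simp [k1]⟩
  simp only [Finset.mem_filter, Finset.mem_univ, true_and] at h2 m2
  obtain ⟨c3, h3, m3⟩ := Finset.exists_max_image
    (Finset.univ.filter (fun c' : V → Bool => CK G c' j ∧ Ta G c' = Ta G c2))
    (fun c' => (Fr G c').card) ⟨c2, by simp [h2]⟩
  simp only [Finset.mem_filter, Finset.mem_univ, true_and] at h3 m3
  refine ⟨c3, h3.1, fun c' hc' => ?_, fun c' hc' ht => m3 c' ⟨hc', ht.trans h3.2⟩⟩
  rw [h3.2]
  exact m2 c' hc'

/-- apexes are the vertices of type `Q` with two neighbours of type `S` -/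
theorem mem_Th_iff (hG : G.IsRegularOfDegree 3) {j : ℕ} (hj : 1 ≤ j) (hO : Opt G c j) (q : V) :
    q ∈ Th G c ↔ Apx G c q := by
  have hm := hO.mu1
  rw [mem_Th]
  constructor
  · rintro ⟨h1, h2⟩
    unfold nS at h2
    obtain ⟨s, s', hne, he⟩ := Finset.card_eq_two.1 h2
    have hs : s ∈ Finset.univ.filter (fun w => G.Adj q w ∧ tS G c w) := by rw [he]; simp
    have hs' : s' ∈ Finset.univ.filter (fun w => G.Adj q w ∧ tS G c w) := by rw [he]; simp
    simp only [Finset.mem_filter, Finset.mem_univ, true_and] at hs hs'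
    exact ⟨s, s', h1, hs.1, hs'.1, F1 hG hj hO h1 hs.2 hs'.2 hs.1 hs'.1 hne, hs.2.1⟩
  · rintro ⟨s, s', h⟩
    obtain ⟨p, n, n', T⟩ := td_of hG hm h
    refine ⟨h.1, ?_⟩
    unfold nS
    have e : Finset.univ.filter (fun w => G.Adj q w ∧ tS G c w) = {s, s'} := by
      ext w
      simp only [Finset.mem_filter, Finset.mem_univ, true_and, Finset.mem_insert,
        Finset.mem_singleton]
      constructor
      · rintro ⟨h1, h2⟩
        rcases (T.nq.nb w).1 h1 with e | e | e
        · rw [e] at h2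
          exact absurd h2.1 (by rw [T.cp]; decide)
        · exact Or.inl e
        · exact Or.inr e
      · rintro (rfl | rfl)
        · exact ⟨h.2.1, (tS_iff hm).2 ⟨T.cx, _, T.rxx⟩⟩
        · exact ⟨h.2.2.1, (tS_iff hm).2 ⟨T.cx', _, T.rxx.symm⟩⟩
    rw [e, Finset.card_pair T.nq.yz]

theorem card_Th (hG : G.IsRegularOfDegree 3) {j : ℕ} (hj : 1 ≤ j) (hO : Opt G c j) :
    (Th G c).card = Ta G c := by
  classical
  unfold Ta
  congr 1
  ext q
  rw [mem_Th_iff hG hj hO]
  simp

/-- THEOREM C from the count -/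
theorem THC (hF : ST_FCNT) (hC : ST_CC) : ST_THC := by
  intro V _ _ G _ hG c j hj hO
  obtain ⟨c', h⟩ := exm_exists hO
  refine ⟨c', h, h.ck.1, ?_⟩
  have h1 := (hF V G hG c' j h.ck.1.mu1 h.ck.1.imb2).1
  have h2 := hC V G hG c' j hj h
  rw [card_Th hG hj h.ck.1] at h1
  omega

end Pool.Agent.Helper96.MC
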