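import Mathlib
import Pool.Agent.Helper96.MC.THC
import Pool.Agent.Helper45.MC.StE

/-!
MP_4042d8_co, section C: theorem C in the form used by section E.
-/

set_option autoImplicit false
set_option linter.unusedSectionVars false
set_option linter.unusedSimpArgs false
set_option linter.unusedVariables false

namespace Pool.Agent.Helper96.MC

open Pool.Agent.Helper27.MC
open Pool.Agent.Helper51.MC Pool.Agent.Helper88.MC Pool.Agent.Helper64.MC
open Pool.Agent.Helper91.MC Pool.Agent.Helper42.MC

/-- theorem C in the form of section E -/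
theorem THE (hF : ST_FCNT) (hC : ST_CC) : Pool.Agent.Helper45.MC.ST_THC := by
  intro V _ _ G _ hG c0 j hj hO
  obtain ⟨c, he, hc, hf⟩ := THC hF hC V G hG c0 j hj hO
  refine ⟨c, hc, hf, ?_⟩
  intro x p u m e y z hx hxp hp hS hA hAv
  have hm := hc.mu1
  rw [mem_Th_iff hG hj hc] at hx hp
  have aup : G.Adj u p := (hS.n3.nb p).2 (by simp)
  have aue : G.Adj u e := (hS.n3.nb e).2 (by simp)
  rcases C2 V G hG c j hj he.ck x p u e hx hxp hp aup.symm (sv_tS hm hS) aue hS.n3.yz.symm
    hS.cb with h | h
  · exact absurd h (tA_not_tQ hA)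
  · obtain ⟨_, k, k', Nk, rk⟩ := h
    have hy : y = k ∨ y = k' := by
      rcases (Nk.nb y).1 ((hAv.n3.nb y).2 (by simp)) with h1 | h1 | h1
      · exact absurd h1 hAv.n3.xy.symm
      · exact Or.inl h1
      · exact Or.inr h1
    have hz : z = k ∨ z = k' := by
      rcases (Nk.nb z).1 ((hAv.n3.nb z).2 (by simp)) with h1 | h1 | h1
      · exact absurd h1 hAv.n3.xz.symm
      · exact Or.inl h1
      · exact Or.inr h1
    have hyz := hAv.n3.yz
    rcases hy with rfl | rfl <;> rcases hz with rfl | rfl
    · exact absurd rfl hyz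
    · exact rk
    · exact rk.symm
    · exact absurd rfl hyz

end Pool.Agent.Helper96.MC
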