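import Mathlib
import Pool.Agent.Helper96.MC.THC

/-!
MP_4042d8_co: the interface between section C and section D, part II: statement of row L.
-/

set_option autoImplicit false
set_option linter.unusedSectionVars false
set_option linter.unusedSimpArgs false
set_option linter.unusedVariables false

namespace Pool.Agent.Helper96.MC

open Pool.Agent.Helper27.MC
open Pool.Agent.Helper51.MC Pool.Agent.Helper88.MC Pool.Agent.Helper64.MC
open Pool.Agent.Helper91.MC Pool.Agent.Helper42.MC

section defs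

variable {V : Type} [Fintype V] [DecidableEq V] (G : SimpleGraph V) [DecidableRel G.Adj]

/-- vertices of type `D` whose mate is free -/
def Bd (c : V → Bool) (v : V) : Prop := v ∈ Dd G c ∧ ∃ s, Rm G c v s ∧ s ∈ Fr G c

/-- (L'') : the two sources `y1`, `y2` are the corners of one apex; the neighbours of their outer
neighbours are `y_i`, `u_i`, `z_i` with `u1`, `u2` free mates and `z_i` of type `B` -/
def Lpp (c : V → Bool) (L : V → V → Prop) (v : V) : Prop :=
  ∃ w p y1 y2 n1 n2 u1 u2 z1 z2, Td G c w p y1 y2 n1 n2 ∧ tA G c n1 ∧ tA G c n2 ∧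
    (∀ y, L v y ↔ y = y1 ∨ y = y2) ∧ N3 G n1 y1 u1 z1 ∧ N3 G n2 y2 u2 z2 ∧ Rm G c u1 u2 ∧
    u1 ∈ Fr G c ∧ u2 ∈ Fr G c ∧ tB G c z1 ∧ tB G c z2

/-- (L') : there is exactly one source, and its neighbour of type `A` has no free neighbour -/
def Lp (c : V → Bool) (L : V → V → Prop) (v : V) : Prop :=
  ∃ y n, (∀ y', L v y' ↔ y' = y) ∧ G.Adj y n ∧ tA G c n ∧ ∀ f, f ∈ Fr G c → ¬ G.Adj n f

open Classical in
/-- `L v y`: `y` is a source of the bad vertex `v` -/
structure Lx (c : V → Bool) (j : ℕ) (L : V → V → Prop) : Prop where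
  bd : ∀ v y, L v y → Bd G c v
  src : ∀ v y, L v y → y ∈ T1 G c ∧ ∃ w p y' n n' d, Td G c w p y y' n n' ∧ tA G c n ∧
    ¬ Apx G c p ∧ G.Adj p d ∧ d ∈ Dd G c
  inj : ∀ v v' y, L v y → L v' y → v = v'
  mat : ∀ v v' y y', L v y → L v' y' → Rm G c y y' → v = v'
  two : ∀ v y, L v y → Lp G c L v ∨ Lpp G c L v
  cnt : 6 * j + (Finset.univ.filter (fun v => Bd G c v ∧ ∀ y, ¬ L v y)).card ≤ (Fr G c).card

end defs

/-- row L -/
def ST_L : Prop :=
  ∀ (V : Type) [Fintype V] [DecidableEq V] (G : SimpleGraph V) [DecidableRel G.Adj],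
    G.IsRegularOfDegree 3 → ∀ (c : V → Bool) (j : ℕ), 2 ≤ j → Exm G c j →
      ∃ L : V → V → Prop, Lx G c j L

/-- LEMMA W: the partner `p` of the apex `w` is the outer neighbour of a corner `y0` of another
apex; then no neighbour `u` of type `S` of an outer neighbour `n` of type `A` of `w` has its other
true neighbour `e` of type `A`. -/
def ST_LW : Prop :=
  ∀ (V : Type) [Fintype V] [DecidableEq V] (G : SimpleGraph V) [DecidableRel G.Adj],
    G.IsRegularOfDegree 3 → ∀ (c : V → Bool) (j : ℕ), 1 ≤ j → CK G c j →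
      ∀ w p y y' n n' x0 p0 y0 y0' m0' u e, Td G c w p y y' n n' → tA G c n →
        Td G c x0 p0 y0 y0' p m0' → x0 ≠ w → G.Adj n u → u ≠ y → tS G c u → G.Adj u e → e ≠ n →
          ¬ tA G c e

/-- SIX: both outer neighbours of an apex are of type `A` and have free neighbours `u1`, `u2`:
then `u1`, `u2` are mates (and the third neighbours are of type `B`). -/
def ST_SIX : Prop :=
  ∀ (V : Type) [Fintype V] [DecidableEq V] (G : SimpleGraph V) [DecidableRel G.Adj],
    G.IsRegularOfDegree 3 → ∀ (c : V → Bool) (j : ℕ), 2 ≤ j → CK G c j →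
      ∀ w p y1 y2 n1 n2 u1 u2, Td G c w p y1 y2 n1 n2 → ¬ Apx G c p → tA G c n1 → tA G c n2 →
        G.Adj n1 u1 → G.Adj n2 u2 → u1 ∈ Fr G c → u2 ∈ Fr G c → Rm G c u1 u2

end Pool.Agent.Helper96.MC
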