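import Mathlib
import Pool.Agent.Helper33.MC.GLoss
import Pool.Agent.Helper79.MC.Acc
import Pool.Agent.Helper6.MC.LK

/-!
MP_4042d8_co, section D, part II, Case 5s: the operation `M` on an `F`-less square.
-/

set_option autoImplicit false
set_option linter.unusedSectionVars false
set_option linter.unusedSimpArgs false
set_option linter.unusedVariables false

namespace Pool.Agent.Helper96.MC

open Pool.Agent.Helper27.MC hiding Fr T1 ter
open Pool.Agent.Helper51.MC Pool.Agent.Helper88.MC Pool.Agent.Helper64.MC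
open Pool.Agent.Helper33.MC
open Pool.Agent.Helper91.MC (sv_ex av_ex sv_Fr sv_T1 sv_Dd sv_swap sv_rm sv_tS sv_tSm tA_or_tQ
  tB_or_tS tA_not_tQ mem_Fr mem_T1)
open Pool.Agent.Helper91.MC.GK (Khb)
open Pool.Agent.Helper79.MC (Sqg KP Cw)
open Pool.Agent.Helper6.MC (Brn gb_iff brn_near near_A near_Fr near_bare k_T1 kf_near near_S
  covB_w khb_ck khb_tQk khb_t1)

/-- half of row G_C5s: `M` on the square -/
def ST_5SM : Prop :=
  ∀ (V : Type) [Fintype V] [DecidableEq V] (G : SimpleGraph V) [DecidableRel G.Adj],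
    ∀ (c : V → Bool) (j : ℕ) (L : V → V → Prop) (H : Finset V), FxG G c j L → Inv G c H →
      ¬ PN G c H → ¬ Q2G G c H → ¬ Q3G G c H → ¬ Q4G G c H → Q5s G c L H →
      ∃ H1, OpM G c H H1 ∧ H ⊆ H1 ∧ Inv G c H1 ∧ ¬ PN G c H1 ∧ LossG G c L H H1 12 2

section

variable {V : Type} [Fintype V] [DecidableEq V] {G : SimpleGraph V} [DecidableRel G.Adj]
  {c : V → Bool} {j : ℕ} {L : V → V → Prop} {H : Finset V}

variable (G) in
/-- the situation: a square with live ends and mates which are not live -/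
structure Sm (c : V → Bool) (H : Finset V) (s1 s2 a b v1 v2 za zb : V) : Prop where
  sq : Sqg G c s1 s2 a b v1 v2 za zb
  l1 : Live G c H s1
  l2 : Live G c H s2
  ca : Clr G H a
  n1 : ¬ Live G c H v1
  n2 : ¬ Live G c H v2
  hz : za ≠ v2

theorem tS_not_tB {z : V} (h : tS G c z) (h' : tB G c z) : False := by
  have h1 := h.2
  have h2 := h'.2
  omega

/-- a good slot, no `N`-slot: `M`-slot or square -/
theorem gsg_cases (hPN : ¬ PN G c H) {f x : V} (hg : GSG G c L H f x) :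
    (∃ t r, MSG G c H f x t r ∧ Avl G c H t) ∨
    ∃ g, G.Adj x g ∧ g ≠ f ∧ ¬ Rm G c f g ∧ Live G c H g := by
  obtain ⟨hl, h | ⟨t, h1, h2, h3, h4⟩ | ⟨g, h1, h2, h3, h4, _⟩⟩ := hg
  · exact (hPN ⟨f, x, hl, h⟩).elim
  · have nb : ¬ Bare G c H f t := by
      intro hb
      refine hPN ⟨f, x, hl, fun w hw hne => ?_⟩
      by_cases e : w = t
      · exact e ▸ hb
      · exact h4 w hw hne e
    obtain ⟨r, hr, hrf, hrH⟩ := not_bare nb
    exact Or.inl ⟨t, r, ⟨hl, h1, h2, h3.1, hr, hrf, hrH, h4⟩, h3⟩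
  · exact Or.inr ⟨g, h1, h2, h3, h4⟩

section facts

variable (F : FxG G c j L) {s1 s2 a b v1 v2 za zb : V} (h : Sm G c H s1 s2 a b v1 v2 za zb)

include F h

theorem sm_fr1 : s1 ∈ Fr G c := h.l1.1

theorem sm_za (hz : tS G c za) : za = v1 := by
  rcases h.sq.ka with e | e | e
  · exact (tS_not_tB hz e).elim
  · exact e.1
  · exact (h.hz e.1).elim

theorem sm_zb (hz : tS G c zb) : zb = v1 ∨ zb = v2 := by
  rcases h.sq.kb with e | e | e
  · exact (tS_not_tB hz e).elim
  · exact Or.inl e.1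
  · exact Or.inr e.1

/-- vertices of type `S` near the new hard set -/
theorem sm_S {g : V} (hg : tS G c g) (hc : Clr G H g)
    (hn : ¬ Clr G (H ∪ {s1, b, za, a, s2, v2}) g) : g = s1 ∨ g = s2 ∨ g = v1 ∨ g = v2 := by
  have q := h.sq
  have hm := F.mu1
  have key : g = za → g = v1 := by
    intro e
    rw [e]
    exact sm_za F h (e ▸ hg)
  have keyb : g = zb → g = v1 ∨ g = v2 := by
    intro e
    rw [e]
    exact sm_zb F h (e ▸ hg)
  rcases not_clr' hc hn with e | ⟨w, aw, e⟩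
  · simp only [Finset.mem_insert, Finset.mem_singleton] at e
    rcases e with e | e | e | e | e | e
    · exact Or.inl e
    · exact (tSG_ne_tA hg q.tb e).elim
    · exact Or.inr (Or.inr (Or.inl (key e)))
    · exact (tSG_ne_tA hg q.ta e).elim
    · exact Or.inr (Or.inl e)
    · exact Or.inr (Or.inr (Or.inr e))
  · simp only [Finset.mem_insert, Finset.mem_singleton] at e
    rcases e with e | e | e | e | e | e
    · subst e
      exact Or.inr (Or.inr (Or.inl (sv_mateG F q.h1 ⟨aw.symm, by rw [q.h1.cs, hg.1]⟩)))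
    · subst e
      rcases (q.hb.n3.nb g).1 aw.symm with e | e | e
      · exact Or.inl e
      · exact Or.inr (Or.inl e)
      · exact Or.inr (Or.inr (keyb e))
    · have r : Rm G c za g := by
        rw [e] at aw
        exact ⟨aw.symm, by rw [q.ha.cz, hg.1]⟩
      have tz : tS G c za := ⟨q.ha.cz, mu_of_rm hm r⟩
      have e1 := sm_za F h tz
      rw [e1] at r
      exact Or.inl (rm_uniq (hm v1) r (sv_rm q.h1).symm)
    · subst e
      rcases (q.ha.n3.nb g).1 aw.symm with e | e | e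
      · exact Or.inl e
      · exact Or.inr (Or.inl e)
      · exact Or.inr (Or.inr (Or.inl (key e)))
    · subst e
      exact Or.inr (Or.inr (Or.inr (sv_mateG F q.h2 ⟨aw.symm, by rw [q.h2.cs, hg.1]⟩)))
    · subst e
      exact Or.inr (Or.inl (rm_uniq (hm w) ⟨aw.symm, by rw [q.h2.cm, hg.1]⟩
        (sv_rm q.h2).symm))

/-- live vertices near the new hard set -/
theorem sm_live {g : V} (hg : Live G c H g)
    (hn : ¬ Clr G (H ∪ {s1, b, za, a, s2, v2}) g) : g = s1 ∨ g = s2 := by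
  rcases sm_S F h (frG_tS hg.1) hg.2 hn with e | e | e | e
  · exact Or.inl e
  · exact Or.inr e
  · exact (h.n1 (e ▸ hg)).elim
  · exact (h.n2 (e ▸ hg)).elim

/-- available vertices near the new hard set -/
theorem sm_avl {t r : V} (ht : Avl G c H t) (hr : Rm G c t r)
    (hn : ¬ Clr G (H ∪ {s1, b, za, a, s2, v2}) t) : r = s1 ∨ r = s2 := by
  rcases sm_S F h (t1G_tS ht.1) ht.2 hn with e | e | e | e
  · exact (frG_not_T1 h.l1.1 (e ▸ ht.1)).elim
  · exact (frG_not_T1 h.l2.1 (e ▸ ht.1)).elim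
  · rw [e] at hr
    exact Or.inl (rm_uniq (F.mu1 v1) hr (sv_rm h.sq.h1).symm)
  · rw [e] at hr
    exact Or.inr (rm_uniq (F.mu1 v2) hr (sv_rm h.sq.h2).symm)

/-- vertices of type `A` near the new hard set -/
theorem sm_A {x : V} (hx : tA G c x) (hc : Clr G H x)
    (hn : ¬ Clr G (H ∪ {s1, b, za, a, s2, v2}) x) :
    x = a ∨ x = b ∨ G.Adj x za ∨ G.Adj x v2 := by
  have q := h.sq
  rcases not_clr' hc hn with e | ⟨w, aw, e⟩
  · simp only [Finset.mem_insert, Finset.mem_singleton] at e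
    rcases e with e | e | e | e | e | e
    · exact (tSG_ne_tA (frG_tS h.l1.1) hx e.symm).elim
    · exact Or.inr (Or.inl e)
    · exact (ne_col q.ha.cz hx.1 e.symm).elim
    · exact Or.inl e
    · exact (tSG_ne_tA (frG_tS h.l2.1) hx e.symm).elim
    · exact (ne_col q.h2.cm hx.1 e.symm).elim
  · simp only [Finset.mem_insert, Finset.mem_singleton] at e
    rcases e with e | e | e | e | e | e
    · subst e
      rcases q.hub1 hx.1 aw with e | e
      · exact Or.inl e
      · exact Or.inr (Or.inl e)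
    · exact (no_AA hx q.tb (e ▸ aw)).elim
    · exact Or.inr (Or.inr (Or.inl (e ▸ aw)))
    · exact (no_AA hx q.ta (e ▸ aw)).elim
    · subst e
      rcases q.swap.hub1 hx.1 aw with e | e
      · exact Or.inl e
      · exact Or.inr (Or.inl e)
    · exact Or.inr (Or.inr (Or.inr (e ▸ aw)))

/-- live vertices at `a` or `b` -/
theorem sm_ab {f : V} (hf : Live G c H f) (ha : G.Adj a f ∨ G.Adj b f) : f = s1 ∨ f = s2 := by
  have q := h.sq
  rcases ha with e | e
  · rcases (q.ha.n3.nb f).1 e with e | e | e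
    · exact Or.inl e
    · exact Or.inr e
    · have e1 := sm_za F h (e ▸ frG_tS hf.1)
      exact (h.n1 (e1 ▸ e ▸ hf)).elim
  · rcases (q.hb.n3.nb f).1 e with e | e | e
    · exact Or.inl e
    · exact Or.inr e
    · rcases sm_zb F h (e ▸ frG_tS hf.1) with e1 | e1
      · exact (h.n1 (e1 ▸ e ▸ hf)).elim
      · exact (h.n2 (e1 ▸ e ▸ hf)).elim

/-- the lost slots -/
theorem sm_slot (hPN : ¬ PN G c H) (h3 : ¬ Q3G G c H) (h4 : ¬ Q4G G c H) {f x : V}
    (hg : GSG G c L H f x) (hn : ¬ GSG G c L (H ∪ {s1, b, za, a, s2, v2}) f x) :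
    f = s1 ∨ f = s2 := by
  have q := h.sq
  have hm := F.mu1
  have hl := hg.1
  have ax : G.Adj x f := hl.adj.symm
  by_contra hcon
  push Not at hcon
  obtain ⟨k1, k2⟩ := hcon
  have fv1 : f ≠ v1 := by
    rintro rfl
    exact h.n1 hl.lv
  have fv2 : f ≠ v2 := by
    rintro rfl
    exact h.n2 hl.lv
  have noab : ∀ g, Live G c H g → g ≠ s1 → g ≠ s2 → ¬ (G.Adj a g ∨ G.Adj b g) := by
    intro g hg' h1 h2 h5
    rcases sm_ab F h hg' h5 with e | e
    · exact h1 e
    · exact h2 e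
  have mv1 : ∀ t r, MSG G c H f x t r → t ≠ v1 := by
    rintro t r hms rfl
    have e : r = s1 := rm_uniq (hm t) hms.2.2.2.2.1 (sv_rm q.h1).symm
    subst e
    exact h4 ⟨f, x, t, r, hms, h.l1⟩
  have mv2 : ∀ t r, MSG G c H f x t r → t ≠ v2 := by
    rintro t r hms rfl
    have e : r = s2 := rm_uniq (hm t) hms.2.2.2.2.1 (sv_rm q.h2).symm
    subst e
    exact h4 ⟨f, x, t, r, hms, h.l2⟩
  rcases st_GGL V G c j L H _ F Finset.subset_union_left f x hg hn with e | e |
    ⟨t, r, h1, h2, h5, h6⟩ | ⟨g, y, v, v', zx, zy, hq, h1, h2, h5, h6, h7, h8, h9⟩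
  · rcases sm_live F h hl.lv e with e | e
    · exact k1 e
    · exact k2 e
  · rcases sm_A F h hl.ta hl.cx e with e | e | e | e
    · exact noab f hl.lv k1 k2 (Or.inl (e ▸ ax))
    · exact noab f hl.lv k1 k2 (Or.inr (e ▸ ax))
    · -- `x ~ za`
      rcases q.ka with tz | tz | tz
      · by_cases xa : x = a
        · exact noab f hl.lv k1 k2 (Or.inl (xa ▸ ax))
        have r4 : ∀ p, tS G c p → G.Adj x p → p ≠ f → p ≠ v1 → p ≠ v2 → Rm G c f p := by
          intro p hp xp pf p1 p2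
          exact F.r4 s1 s2 a b v1 v2 za zb x f p q hl.ta xa e (frG_tS hl.fr) hp ax xp pf.symm fv1
            fv2 p1 p2 (fun e' => tS_not_tB (e' ▸ frG_tS hl.fr) tz)
            (fun e' => tS_not_tB (e' ▸ hp) tz)
        rcases gsg_cases hPN hg with ⟨t, r, hms, ht⟩ | ⟨g, xg, gf, ngf, hgl⟩
        · have e1 := r4 t (t1G_tS ht.1) hms.2.1 hms.2.2.1 (mv1 t r hms) (mv2 t r hms)
          exact hms.2.2.2.2.2.1 (rm_uniq (hm t) hms.2.2.2.2.1 e1.symm)
        · exact ngf (r4 g (frG_tS hgl.1) xg gf (fun e' => h.n1 (e' ▸ hgl))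
            (fun e' => h.n2 (e' ▸ hgl)))
      · obtain ⟨tz1, tz2⟩ := tz
        have a1 : G.Adj v1 a := by
          rw [← tz1]
          exact ((q.ha.n3.nb za).2 (by simp)).symm
        have e1 : a = x := t1_oneA F tz2 a1 q.ta (tz1 ▸ e.symm) hl.ta
        exact noab f hl.lv k1 k2 (Or.inl (e1 ▸ ax))
      · exact h.hz tz.1
    · -- `x ~ v2`
      rcases gsg_cases hPN hg with ⟨t, r, hms, ht⟩ | ⟨g, xg, gf, ngf, hgl⟩
      · rcases hms.2.2.2.2.2.2.2 v2 e fv2.symm (mv2 t r hms).symm s2 (sv_rm q.h2).symm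
          with e1 | e1
        · exact k2 e1.symm
        · exact h.l2.2.1 e1
      · obtain ⟨v, y, hs, ty⟩ := fr_svG F hl.fr hl.adj hl.ta
        obtain ⟨v', zx, zy, hq⟩ := sqg_of F hs hl.fr hgl.1 gf.symm ngf xg hl.ta
        have tv2 : tS G c v2 := sv_tSm hm q.h2
        rcases (hq.ha.n3.nb v2).1 e with e1 | e1 | e1
        · exact fv2 e1.symm
        · exact h.n2 (e1 ▸ hgl)
        · rcases hq.ka with e2 | e2 | e2
          · exact tS_not_tB tv2 (e1 ▸ e2)
          · have r : Rm G c v2 f := by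
              rw [e1, e2.1]
              exact (sv_rm hq.h1).symm
            exact k2 (rm_uniq (hm v2) r (sv_rm q.h2).symm)
          · have r : Rm G c v2 g := by
              rw [e1, e2.1]
              exact (sv_rm hq.h2).symm
            have e3 : g = s2 := rm_uniq (hm v2) r (sv_rm q.h2).symm
            rw [e3] at xg
            rcases q.swap.hub1 hl.ta.1 xg with e4 | e4
            · exact noab f hl.lv k1 k2 (Or.inl (e4 ▸ ax))
            · exact noab f hl.lv k1 k2 (Or.inr (e4 ▸ ax))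
  · have hr := h1.2.2.2.2.1
    rcases sm_avl F h h2 hr h5 with e | e
    · exact h6 (by rw [e]; simp)
    · exact h6 (by rw [e]; simp)
  · have hgl : Live G c H g := h2.mono Finset.subset_union_left
    have hlf := hl.lv
    rcases h5 with h5 | h5 | h5 | ⟨y', h5, h5'⟩
    · exact h3 ⟨g, f, x, y, v', v, zx, zy, hq.swap, hgl, hlf, sqg_ls hq hl hgl, h5⟩
    · have hnc : ¬ Clr G (H ∪ {s1, b, za, a, s2, v2}) v := fun h' => h7 ⟨h5.1, h'⟩
      rcases sm_avl F h h5 (sv_rm hq.h1).symm hnc with e | e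
      · exact k1 e
      · exact k2 e
    · exact h3 ⟨f, g, x, y, v, v', zx, zy, hq, hlf, hgl, hl, h5⟩
    · have hnc : ¬ Clr G (H ∪ {s1, b, za, a, s2, v2}) y' := fun h' => h9 y' h5 ⟨h5'.1, h'⟩
      obtain ⟨r, hr⟩ := exists_mate (t1G_tS h5'.1).2
      refine src_mate F h5 hr ?_
      rcases sm_avl F h h5' hr hnc with e | e
      · rw [e]
        exact h.l1.1
      · rw [e]
        exact h.l2.1

/-- the lost branches -/
theorem sm_br {t f k : V} (hb : Brn G c H t f k)
    (hn : ¬ GB G c (H ∪ {s1, b, za, a, s2, v2}) t) :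
    (f = s1 ∨ f = s2) ∨ G.Adj k za ∨ G.Adj k v2 := by
  have q := h.sq
  have hm := F.mu1
  obtain ⟨v, x, y, t', q0, q', k', K, hl, hk⟩ := hb
  obtain ⟨w, hw, hc⟩ := brn_near F K hl hk hn
  have as1 : G.Adj s1 a := (q.h1.n3.nb a).2 (by simp)
  have bs1 : G.Adj s1 b := (q.h1.n3.nb b).2 (by simp)
  have m1 : ∀ z, Rm G c s1 z → z = v1 := fun z hz => sv_mateG F q.h1 hz
  have m2 : ∀ z, Rm G c s2 z → z = v2 := fun z hz => sv_mateG F q.h2 hz
  have nv1 : f ≠ v1 := by
    rintro rfl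
    exact h.n1 hl.lv
  have nv2 : f ≠ v2 := by
    rintro rfl
    exact h.n2 hl.lv
  simp only [Finset.mem_insert, Finset.mem_singleton] at hw
  rcases hw with hw | hw | hw | hw | hw | hw
  · subst hw
    rcases near_Fr F K h.l1.1 hc with e | e
    · exact Or.inl (Or.inl e)
    · exact (nv1 (m1 f e)).elim
  · subst hw
    rcases kf_near F K h.l1.1 (sv_rm q.h1) q.tb (near_A F K q.tb hc) bs1 with e | e
    · exact Or.inl (Or.inl e)
    · exact (nv1 e).elim
  · have hba : Bare G c H s1 w := by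
      rcases sqg_za (H := H) F q with e | e
      · exact hw ▸ e
      · exact (h.hz e.1).elim
    rcases near_bare F K hl (hw ▸ q.ha.cz) h.l1.1 hba hc with e | e | e
    · exact Or.inl (Or.inl e)
    · exact (nv1 (m1 f e)).elim
    · exact Or.inr (Or.inl (hw ▸ e))
  · subst hw
    rcases kf_near F K h.l1.1 (sv_rm q.h1) q.ta (near_A F K q.ta hc) as1 with e | e
    · exact Or.inl (Or.inl e)
    · exact (nv1 e).elim
  · subst hw
    rcases near_Fr F K h.l2.1 hc with e | e
    · exact Or.inl (Or.inr e)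
    · exact (nv2 (m2 f e)).elim
  · have tv2 : tS G c v2 := sv_tSm hm q.h2
    rw [hw] at hc
    rcases near_S F K tv2 (sv_rm q.h2).symm hc with e | e | e | e | e
    · exact (nv2 e).elim
    · exact Or.inl (Or.inr e)
    · exact (frG_not_T1 h.l2.1 (e ▸ khb_t1 F K.symm)).elim
    · exact (frG_not_T1 h.l2.1 (e ▸ khb_t1 F K)).elim
    · exact Or.inr (Or.inr e)

omit F h in
theorem cw_cov {n : ℕ} {P : V → Prop} (hP : Cov P n) : Cw G c n (fun _ _ => False) P := by
  obtain ⟨M, h1, h2⟩ := hP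
  exact ⟨∅, M, by simpa using h1, fun _ _ h => h.elim, fun t ht => Or.inl (h2 t ht)⟩

/-- no `N`-slot after the operation -/
theorem sm_PN (hPN : ¬ PN G c H) (h4 : ¬ Q4G G c H) :
    ¬ PN G c (H ∪ {s1, b, za, a, s2, v2}) := by
  have q := h.sq
  have hm := F.mu1
  rintro ⟨u, x, hl', hb⟩
  have hl : LS G c H u x := ⟨hl'.1, hl'.2.1, hl'.2.2.1,
    hl'.2.2.2.1.mono Finset.subset_union_left, hl'.2.2.2.2.mono Finset.subset_union_left⟩
  -- the vertices which are not bare
  have key : ∀ w, G.Adj x w → w ≠ u → ¬ Bare G c H u w → w = v1 := by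
    intro w hw hne hnb
    obtain ⟨m, hm1, hmu, hmH⟩ := not_bare hnb
    have cw : c w = false := false_of_A hl.ta.1 hl.ta.2 hw
    have cm : c m = false := by rw [hm1.2, cw]
    have wH : w ∉ H ∪ {s1, b, za, a, s2, v2} := hl'.2.2.2.2.2 w hw
    have tm : tS G c m := ⟨cm, mu_of_rm hm hm1.symm⟩
    rcases hb w hw hne m hm1 with e | e
    · exact (hmu e).elim
    · rcases Finset.mem_union.1 e with e | e
      · exact (hmH e).elim
      · simp only [Finset.mem_insert, Finset.mem_singleton] at e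
        have r := hm1.symm
        rcases e with e | e | e | e | e | e
        · rw [e] at r
          exact sv_mateG F q.h1 r
        · exact (ne_col cm q.tb.1 e).elim
        · exfalso
          have e1 := sm_za F h (e ▸ tm)
          rw [e, e1] at r
          have e2 : w = s1 := rm_uniq (hm v1) r (sv_rm q.h1).symm
          exact wH (by rw [e2]; simp)
        · exact (ne_col cm q.ta.1 e).elim
        · exfalso
          rw [e] at r
          have e2 : w = v2 := sv_mateG F q.h2 r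
          exact wH (by rw [e2]; simp)
        · exfalso
          rw [e] at r
          have e2 : w = s2 := rm_uniq (hm v2) r (sv_rm q.h2).symm
          exact wH (by rw [e2]; simp)
  by_cases hall : ∀ w, G.Adj x w → w ≠ u → Bare G c H u w
  · exact hPN ⟨u, x, hl, hall⟩
  push Not at hall
  obtain ⟨w, xw, wu, hnb⟩ := hall
  have e := key w xw wu hnb
  subst e
  have us1 : u ≠ s1 := by
    rintro rfl
    exact hl'.2.2.2.1.1 (by simp)
  have tw : tS G c w := sv_tSm hm q.h1
  rcases s_of_AG F tw xw hl.ta with hf | ht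
  · have nr : ¬ Rm G c u w := by
      intro r
      exact us1 (rm_uniq (hm w) r.symm (sv_rm q.h1).symm)
    obtain ⟨v, y, hs, ty⟩ := fr_svG F hl.fr hl.adj hl.ta
    obtain ⟨v', zx, zy, hq⟩ := sqg_of F hs hl.fr hf wu.symm nr xw hl.ta
    have e : v' = s1 := rm_uniq (hm w) (sv_rm hq.h2) (sv_rm q.h1).symm
    exact h.n1 (sqg_live F hq hl (by rw [e]; exact h.l1.2.1))
  · refine h4 ⟨u, x, w, s1, ⟨hl, xw, wu, ht, (sv_rm q.h1).symm, us1.symm, h.l1.2.1, ?_⟩, h.l1⟩
    intro p xp pu pw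
    by_contra hnb'
    exact pw (key p xp pu hnb')

/-- the operation `M` on the square -/
theorem sm_core (hI : Inv G c H) (hPN : ¬ PN G c H) (h3 : ¬ Q3G G c H) (h4 : ¬ Q4G G c H) :
    ∃ H1, OpM G c H H1 ∧ H ⊆ H1 ∧ Inv G c H1 ∧ ¬ PN G c H1 ∧ LossG G c L H H1 12 2 := by
  classical
  have q := h.sq
  have hm := F.mu1
  have hba : Bare G c H s1 za := by
    rcases sqg_za (H := H) F q with e | e
    · exact e
    · exact (h.hz e.1).elim
  have v2s1 : v2 ≠ s1 := by
    intro e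
    exact q.n12 (by
      have := (sv_rm q.h2).symm
      rw [e] at this
      exact this)
  have v2H : v2 ∉ H := h.l2.2.2 v2 ((q.h2.n3.nb v2).2 (by simp))
  refine ⟨H ∪ {s1, b, za, a, s2, v2}, ⟨s1, v1, a, b, za, s2, v2, q.h1,
    ⟨q.ha.ca, q.ha.cx, q.ha.cz, q.ha.cy, n3_23 q.ha.n3⟩, q.ta, q.tb, h.l1.2, h.ca, hba,
    sv_rm q.h2, v2s1, v2H, rfl⟩, Finset.subset_union_left, ?_, sm_PN F h hPN h4, ?_, ?_⟩
  · intro p p' tp rp hp
    rcases Finset.mem_union.1 hp with e | e
    · exact Finset.mem_union_left _ (hI p p' tp rp e)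
    · exfalso
      simp only [Finset.mem_insert, Finset.mem_singleton] at e
      rcases e with e | e | e | e | e | e
      · exact ne_col q.h1.cs tp.1 e.symm
      · exact tA_not_tQ q.tb (e ▸ tp)
      · exact ne_col q.ha.cz tp.1 e.symm
      · exact tA_not_tQ q.ta (e ▸ tp)
      · exact ne_col q.h2.cs tp.1 e.symm
      · exact ne_col q.h2.cm tp.1 e.symm
  · refine Pool.Agent.Helper79.MC.Cw.card hm ?_
    obtain ⟨n1, n2, N1⟩ := n3_of F.reg (((q.ha.n3.nb za).2 (by simp)).symm : G.Adj za a)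
    obtain ⟨e1, e2, N2⟩ := n3_of F.reg ((sv_rm q.h2).symm.1 : G.Adj v2 s2)
    refine ((((Pool.Agent.Helper79.MC.Cw.fst F.reg hm H s1).or
      (Pool.Agent.Helper79.MC.Cw.fst F.reg hm H s2)).or
      (cw_cov (G := G) (c := c) (covB_w F H N1))).or
      (cw_cov (G := G) (c := c) (covB_w F H N2))).mono (by norm_num) ?_ ?_
    · rintro f x ⟨hg, hn⟩
      left; left
      rcases sm_slot F h hPN h3 h4 hg hn with e | e
      · exact Or.inl ⟨e, hg.1⟩
      · exact Or.inr ⟨e, hg.1⟩
    · rintro t ⟨hg, hn⟩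
      obtain ⟨f, k, hb⟩ := gb_iff.1 hg
      have hb' := hb
      obtain ⟨v, x, y, t', q0, q', k', K, hl, hk⟩ := hb'
      have ck := khb_ck K
      rcases sm_br F h hb hn with (e | e) | e | e
      · subst e
        exact Or.inl (Or.inl (Or.inl ⟨x, ⟨v, y, t', q0, q', k, k', K⟩, hl⟩))
      · subst e
        exact Or.inl (Or.inl (Or.inr ⟨x, ⟨v, y, t', q0, q', k, k', K⟩, hl⟩))
      · refine Or.inl (Or.inr ⟨f, k, hb, e, ?_⟩)
        intro e'
        exact tA_not_tQ q.ta (e' ▸ khb_tQk F K)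
      · refine Or.inr ⟨f, k, hb, e, ?_⟩
        exact fun e' => ne_col q.h2.cs ck e'.symm
  · refine (Finset.card_le_card (t := {s1, s2}) ?_).trans Finset.card_le_two
    intro g hg
    rw [Finset.mem_sdiff] at hg
    unfold live at hg
    simp only [Finset.mem_filter, Finset.mem_univ, true_and] at hg
    rw [Finset.mem_insert, Finset.mem_singleton]
    exact sm_live F h hg.1 fun hc => hg.2 ⟨hg.1.1, hc⟩

end facts

end

/-- half of row G_C5s -/
theorem st_5SM : ST_5SM := by
  intro V _ _ G _ c j L H F hI hPN _ h3 h4 h5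
  obtain ⟨s1, s2, a, b, v1, v2, za, zb, q, hg, l2⟩ := h5
  have hl := hg.1
  have ls2 := sqg_ls q hl l2
  have n2 : ¬ Live G c H v2 := fun h' => h3 ⟨s1, s2, a, b, v1, v2, za, zb, q, hl.lv, l2, hl, h'⟩
  have n1 : ¬ Live G c H v1 := fun h' =>
    h3 ⟨s2, s1, a, b, v2, v1, za, zb, q.swap, l2, hl.lv, ls2, h'⟩
  by_cases hz : za = v2
  · have hz' : za ≠ v1 := by
      intro e
      have e1 : v1 = v2 := e.symm.trans hz
      have r := (sv_rm q.h2).symm
      rw [← e1] at r
      exact q.ha.n3.xy (rm_uniq (F.mu1 v1) (sv_rm q.h1).symm r)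
    exact sm_core F ⟨q.swap, l2, hl.lv, hl.cx, n2, n1, hz'⟩ hI hPN h3 h4
  · exact sm_core F ⟨q, hl.lv, l2, hl.cx, n1, n2, hz⟩ hI hPN h3 h4

end Pool.Agent.Helper96.MC
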