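import Mathlib
import Pool.Agent.Helper96.MC.LSt
import Pool.Agent.Helper6.MC.C6
import Pool.Agent.Helper53.MC.C7
import Pool.Agent.Helper91.MC.C45F
import Pool.Agent.Helper79.MC.C1

/-!
MP_4042d8_co, section C: LEMMA W.
-/

set_option autoImplicit false
set_option linter.unusedSectionVars false
set_option linter.unusedSimpArgs false
set_option linter.unusedVariables false

namespace Pool.Agent.Helper96.MC

open Pool.Agent.Helper27.MC
open Pool.Agent.Helper51.MC Pool.Agent.Helper88.MC Pool.Agent.Helper64.MC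
open Pool.Agent.Helper91.MC Pool.Agent.Helper42.MC
open Pool.Agent.Helper6.MC (M1_CK)

/-- C1, unconditional -/
theorem c1' : ST_C1 := Pool.Agent.Helper79.MC.C1

/-- C3, unconditional -/
theorem c3' : ST_C3 := C3 c1'

/-- C4, unconditional -/
theorem c4' : ST_C4 := Pool.Agent.Helper91.MC.CF.st_C4 M1 c1' C2 c3'

/-- C5, unconditional -/
theorem c5' : ST_C5 := Pool.Agent.Helper91.MC.CF.st_C5 M1 c1' C2 c3'

/-- C6, unconditional -/
theorem c6' : ST_C6 := Pool.Agent.Helper6.MC.C6 M1 c1' c5'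

/-- C7, unconditional -/
theorem c7' : ST_C7 := Pool.Agent.Helper53.MC.st_C7 M1 M2 c1' c3'

section

variable {V : Type} [Fintype V] [DecidableEq V] {G : SimpleGraph V} [DecidableRel G.Adj]
  {c c1 : V → Bool}

/-- transfer of the data of a Theta -/
theorem Td.mv {q p x x' n n' : V} (T : Td G c q p x x' n n') (hq : c1 q = c q) (hp : c1 p = c p)
    (hx : c1 x = c x) (hx' : c1 x' = c x') (hn : c1 n = c n) (hn' : c1 n' = c n') :
    Td G c1 q p x x' n n' :=
  ⟨by rw [hq, T.cq], by rw [hp, T.cp], by rw [hx, T.cx], by rw [hx', T.cx'], by rw [hn, T.cn],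
    by rw [hn', T.cn'], T.nq, T.nx, T.nx'⟩

/-- the exception of C2 has no child, for colourings with `Kp` minimal -/
theorem nochild (hG : G.IsRegularOfDegree 3) {j : ℕ} (hj : 1 ≤ j) (hCK : CK G c j)
    {q p u b : V} (hq : Apx G c q) (rqp : Rm G c q p) (hap : ¬ Apx G c p) (hpu : G.Adj p u)
    (htu : tS G c u) (hub : G.Adj u b) (hbp : b ≠ p) (htb : tA G c b) (hPm : Pm G c b u)
    (w : V) : ¬ Ch G c q w := by
  have hO := hCK.1
  have hm := hO.mu1
  have cq : c q = true := (apx_tQ hq).1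
  have cp : c p = true := by rw [rqp.2, cq]
  have hqu : q ≠ u := (ne_col htu.1 cq).symm
  obtain ⟨z, np⟩ := n3_of2 hG rqp.1.symm hpu hqu
  obtain ⟨u', hu'⟩ := exists_mate htu.2
  have cu' : c u' = false := by rw [hu'.2, htu.1]
  have hpu' : p ≠ u' := (ne_col cu' cp).symm
  obtain ⟨b0, nu⟩ := n3_of2 hG hpu.symm hu'.1 hpu'
  have hb0 : b0 = b := by
    rcases (nu.nb b).1 hub with e | e | e
    · exact absurd e hbp
    · exact absurd e.symm (ne_col cu' htb.1)
    · exact e.symm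
  subst hb0
  obtain ⟨hz, M⟩ := M2 V G hG c j hj hO q p u u' z b0 hq rqp hap np htu.1 nu cu' htb
  have hO2 := M.opt j hO
  have hCK2 : CK G (flp c {p, u}) j :=
    ⟨hO2, fun c' h' => (M.kp hPm).trans (hCK.2 c' h')⟩
  rintro ⟨p1, y, y', l, l', T1, hlp, hw, hwl⟩
  have e : p1 = p := rm_uniq (hm q) T1.rqp rqp
  subst e
  rcases c1' V G hG c j hj hCK q p1 y y' l l' T1 with ⟨h1, -⟩ | ⟨-, hl'p, hll'⟩
  · exact hlp h1
  have hyu : y ≠ u := Pool.Agent.Helper53.MC.corner_ne hm T1 hlp hpu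
  have hyu' : y' ≠ u := Pool.Agent.Helper53.MC.corner_ne hm T1.swap hl'p hpu
  have hyp : y ≠ p1 := ne_col T1.cx T1.cp
  have hyp' : y' ≠ p1 := ne_col T1.cx' T1.cp
  have hlu : l ≠ u := (ne_col htu.1 T1.cn).symm
  have hwc : c w = true := (apx_tQ hw).1
  have hwq : w ≠ q := by
    rintro rfl
    exact hlp (rm_uniq (hm _) hwl rqp)
  have hwp : w ≠ p1 := by
    rintro rfl
    exact hap hw
  have hwu : w ≠ u := (ne_col htu.1 hwc).symm
  refine c3' V G hG (flp c {p1, u}) j hj hCK2 q y y' l w ((M.tA q).2 (Or.inr rfl))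
    ((T1.nq.nb y).2 (by simp)) ((T1.nq.nb y').2 (by simp))
    ((M.rm y y').2 (Or.inl ⟨T1.rxx, hyp, hyu, hyp', hyu'⟩)) ((T1.nx.nb l).2 (by simp))
    T1.nx.xz.symm ?_ ((M.apx w).2 (Or.inl ⟨hw, hwq⟩))
    ((M.rm w l).2 (Or.inl ⟨hwl, hwp, hwu, hlp, hlu⟩))
  rw [M.col l hlp hlu, T1.cn]

end

/-- row LW -/
theorem LW : ST_LW := by
  intro V _ _ G _ hG c j hj hK w p y y' n n' x0 p0 y0 y0' m0' u e T hn X hxw hnu huy tu hue hen he
  have hm := hK.1.mu1
  have tQp : tQ G c p := (tQ_iff hm).2 ⟨T.cp, w, T.rqp.symm⟩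
  have hnp : n ≠ p := by
    rintro rfl
    exact tA_not_tQ hn tQp
  obtain ⟨-, hn'p, hnn⟩ : n ≠ p ∧ n' ≠ p ∧ n ≠ n' := by
    rcases c1' V G hG c j hj hK w p y y' n n' T with h | h
    · exact absurd h.1 hnp
    · exact h
  -- the vertices of the two Thetas
  have a1 : p ≠ w := T.rqp.ne.symm
  have a2 : p ≠ y := (ne_col T.cx T.cp).symm
  have a3 : x0 ≠ y := (ne_col T.cx X.cq).symm
  have a4 : p0 ≠ w := by
    rintro rfl
    have h1 : x0 = p := rm_uniq (hm _) X.rqp.symm T.rqp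
    exact X.nx.xz h1
  have a5 : p0 ≠ y := (ne_col T.cx X.cp).symm
  have a6 : y0 ≠ w := ne_col X.cx T.cq
  have ap : G.Adj y0 p := (X.nx.nb p).2 (by simp)
  have ncor : ∀ v, c v = false → G.Adj v p → v ≠ y ∧ v ≠ y' := by
    intro v cv hv
    constructor
    · rintro rfl
      rcases (T.nx.nb p).1 hv with h | h | h
      · exact a1 h
      · exact ne_col T.cx' T.cp h.symm
      · exact hnp h.symm
    · rintro rfl
      rcases (T.nx'.nb p).1 hv with h | h | h
      · exact a1 h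
      · exact ne_col T.cx T.cp h.symm
      · exact hn'p h.symm
  obtain ⟨a7, a7'⟩ := ncor y0 X.cx ap
  have a8 : y0' ≠ w := ne_col X.cx' T.cq
  have a9 : y0' ≠ y := by
    rintro rfl
    exact a7' (rm_uniq (hm _) X.rxx.symm T.rxx)
  have a9' : y0' ≠ y' := by
    rintro rfl
    exact a7 (rm_uniq (hm _) X.rxx.symm T.rxx.symm)
  have a10 : m0' ≠ w := by
    rintro rfl
    have h1 : G.Adj m0' y0' := ((X.nx'.nb m0').2 (by simp)).symm
    rcases (T.nq.nb y0').1 h1 with h | h | h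
    · exact ne_col X.cx' T.cp h
    · exact a9 h
    · exact a9' h
  have a11 : m0' ≠ y := (ne_col T.cx X.cn').symm
  -- first rotation
  have R := M1 V G hG c hm w p y y' n n' T hn
  have hK1 := M1_CK R hK
  have hm1 := hK1.1.mu1
  have X1 : Td G (flp c {w, y}) x0 p0 y0 y0' p m0' :=
    X.mv (R.col _ hxw a3) (R.col _ a4 a5) (R.col _ a6 a7) (R.col _ a8 a9) (R.col _ a1 a2)
      (R.col _ a10 a11)
  -- second rotation
  have R2 := M1 V G hG _ hm1 x0 p0 y0 y0' p m0' X1 ((R.tA p).2 (Or.inr rfl))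
  have hK2 := M1_CK R2 hK1
  have hm2 := hK2.1.mu1
  have b1 : y ≠ x0 := a3.symm
  have b2 : n ≠ x0 := by
    rintro rfl
    exact tA_not_tQ hn (X.tp hm).1
  have b3 : n ≠ y0 := (ne_col X.cx T.cn).symm
  have b4 : y' ≠ x0 := ne_col T.cx' X.cq
  have b5 : n' ≠ x0 := by
    rintro rfl
    have h1 : G.Adj n' y' := ((T.nx'.nb n').2 (by simp)).symm
    rcases (X.nq.nb y').1 h1 with h | h | h
    · exact ne_col T.cx' X.cp h
    · exact a7' h.symm
    · exact a9' h.symm
  have b6 : n' ≠ y0 := (ne_col X.cx T.cn').symm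
  have b7 : p ≠ x0 := X.nx.xz.symm
  have b8 : p ≠ y0 := (ne_col X.cx T.cp).symm
  have T2 : Td G (flp (flp c {w, y}) {x0, y0}) y n w y' p n' :=
    R.td.mv (R2.col _ b1 a7.symm) (R2.col _ b2 b3) (R2.col _ hxw.symm a6.symm)
      (R2.col _ b4 a7'.symm) (R2.col _ b7 b8) (R2.col _ b5 b6)
  have hch : Ch G (flp (flp c {w, y}) {x0, y0}) y y0 :=
    ⟨n, w, y', p, n', T2, hnp.symm, R2.td.apx hm2, R2.td.rqp⟩
  have uy0 : u ≠ y0 := by
    rintro rfl
    rcases (X.nx.nb n).1 hnu.symm with h | h | h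
    · exact b2 h
    · exact ne_col X.cx' T.cn h.symm
    · exact hnp h
  have tu2 : tS G (flp (flp c {w, y}) {x0, y0}) u :=
    (R2.tS u).2 (Or.inl ⟨(R.tS u).2 (Or.inl ⟨tu, huy⟩), uy0⟩)
  have hep : e ≠ p := by
    rintro rfl
    exact tA_not_tQ he tQp
  have te2 : tA G (flp (flp c {w, y}) {x0, y0}) e :=
    (R2.tA e).2 (Or.inl ⟨(R.tA e).2 (Or.inl ⟨he, hen⟩), hep⟩)
  by_cases hap : Apx G (flp (flp c {w, y}) {x0, y0}) n
  · -- double
    refine c5' V G hG _ j hj hK2 0 y n y0 (T2.apx hm2) hap T2.rqp hch ?_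
    obtain ⟨s, s', hs⟩ := hap
    obtain ⟨p3, k, k', S⟩ := td_of hG hm2 hs
    have ep : p3 = y := rm_uniq (hm2 n) S.rqp T2.rqp.symm
    subst ep
    have cu2 := tu2.1
    refine ⟨fun _ => n, rfl, fun i hi => absurd hi (Nat.not_lt_zero i), ?_⟩
    rcases (S.nq.nb u).1 hnu with h | h | h
    · exact absurd h huy
    · subst h
      have : k = e := by
        rcases (S.nx.nb e).1 hue with h | h | h
        · exact absurd h hen
        · rw [h] at te2
          have := te2.1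
          rw [S.cx'] at this
          cases this
        · exact h.symm
      subst this
      exact ⟨p3, u, s', k, k', S, te2⟩
    · subst h
      have : k' = e := by
        rcases (S.nx'.nb e).1 hue with h | h | h
        · exact absurd h hen
        · rw [h] at te2
          have := te2.1
          rw [S.cx] at this
          cases this
        · exact h.symm
      subst this
      exact ⟨p3, u, s, k', k, S.swap, te2⟩
  · rcases C2 V G hG _ j hj hK2 y n u e (T2.apx hm2) T2.rqp hap hnu tu2 hue hen te2.1 with h | h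
    · exact tA_not_tQ te2 h
    · exact nochild hG hj hK2 (T2.apx hm2) T2.rqp hap hnu tu2 hue hen te2 h.2 y0 hch

end Pool.Agent.Helper96.MC
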