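import Mathlib
import Pool.Agent.Helper96.MC.LW
import Pool.Agent.Helper92.MC.FCNT

/-!
MP_4042d8_co, section C: the count, general form.
-/

set_option autoImplicit false
set_option linter.unusedSectionVars false
set_option linter.unusedSimpArgs false
set_option linter.unusedVariables false

namespace Pool.Agent.Helper96.MC

open Pool.Agent.Helper27.MC
open Pool.Agent.Helper51.MC Pool.Agent.Helper88.MC Pool.Agent.Helper64.MC
open Pool.Agent.Helper91.MC Pool.Agent.Helper42.MC

section

variable {V : Type} [Fintype V] [DecidableEq V] {G : SimpleGraph V} [DecidableRel G.Adj]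
  {c : V → Bool} {j : ℕ}

variable (G) in
/-- apex of a complete graph component -/
def K4 (c : V → Bool) (q : V) : Prop := ∃ p x x', Td G c q p x x' p p

variable (G) in
/-- apexes which are not accessible -/
def Yy (c : V → Bool) (q : V) : Prop := Apx G c q ∧ ¬ K4 G c q ∧ ∀ m, ¬ Acc G c m q

variable (G) in
/-- accessible apexes whose mate is not an apex and has an `S`-neighbour -/
def E34 (c : V → Bool) (q : V) : Prop :=
  Apx G c q ∧ ¬ K4 G c q ∧ (∃ m, Acc G c m q) ∧
    ∃ p u, Rm G c q p ∧ ¬ Apx G c p ∧ G.Adj p u ∧ tS G c u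

theorem apx_col {q : V} (h : Apx G c q) : c q = true := (apx_tQ h).1

theorem tS_rm (hm : ∀ v, mu G c v ≤ 1) {s s' : V} (cs : c s = false) (h : Rm G c s s') :
    tS G c s := (tS_iff hm).2 ⟨cs, s', h⟩

theorem tQ_rm (hm : ∀ v, mu G c v ≤ 1) {s s' : V} (cs : c s = true) (h : Rm G c s s') :
    tQ G c s := (tQ_iff hm).2 ⟨cs, s', h⟩

/-- the data of an apex -/
theorem td_apx (hG : G.IsRegularOfDegree 3) (hm : ∀ v, mu G c v ≤ 1) {q : V}
    (h : Apx G c q) : ∃ p x x' n n', Td G c q p x x' n n' := by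
  obtain ⟨s, s', h⟩ := h
  obtain ⟨p, n, n', T⟩ := td_of hG hm h
  exact ⟨p, s, s', n, n', T⟩

/-- the data of an apex beginning with a given corner -/
theorem td_at (hG : G.IsRegularOfDegree 3) (hm : ∀ v, mu G c v ≤ 1) {q x : V}
    (h : Apx G c q) (hx : G.Adj q x) (cx : c x = false) :
    ∃ p x' n n', Td G c q p x x' n n' := by
  obtain ⟨p, y, y', n, n', T⟩ := td_apx hG hm h
  rcases (T.nq.nb x).1 hx with e | e | e
  · rw [e, T.cp] at cx
    cases cx
  · subst e
    exact ⟨p, y', n, n', T⟩
  · subst e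
    exact ⟨p, y, n', n, T.swap⟩

/-- not in a K4: the outer neighbours are different and different from the mate -/
theorem nk4 (hG : G.IsRegularOfDegree 3) (hj : 1 ≤ j) (hK : CK G c j) {q p x x' n n' : V}
    (T : Td G c q p x x' n n') (h : ¬ K4 G c q) : n ≠ p ∧ n' ≠ p ∧ n ≠ n' := by
  rcases c1' V G hG c j hj hK q p x x' n n' T with e | e
  · obtain ⟨rfl, e2⟩ := e
    subst e2
    exact absurd ⟨_, x, x', T⟩ h
  · exact e

/-- a true neighbour of a corner is the apex or the outer neighbour -/
theorem Td.cor {q p x x' n n' w : V} (T : Td G c q p x x' n n') (h : G.Adj x w)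
    (cw : c w = true) : w = q ∨ w = n := by
  rcases (T.nx.nb w).1 h with e | e | e
  · exact Or.inl e
  · rw [e, T.cx'] at cw
    cases cw
  · exact Or.inr e

/-- a false neighbour of an apex is a corner -/
theorem Td.apc {q p x x' n n' w : V} (T : Td G c q p x x' n n') (h : G.Adj q w)
    (cw : c w = false) : w = x ∨ w = x' := by
  rcases (T.nq.nb w).1 h with e | e | e
  · rw [e, T.cp] at cw
    cases cw
  · exact Or.inl e
  · exact Or.inr e

/-- the outer neighbour of a corner is not an apex -/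
theorem out_nap (hG : G.IsRegularOfDegree 3) (hj : 1 ≤ j) (hK : CK G c j) {q p x x' n n' : V}
    (T : Td G c q p x x' n n') (h : ¬ K4 G c q) : ¬ Apx G c n := by
  have hm := hK.1.mu1
  obtain ⟨h1, h2, h3⟩ := nk4 hG hj hK T h
  intro ha
  have hx : G.Adj n x := ((T.nx.nb n).2 (by simp)).symm
  obtain ⟨p2, y', k, k', S⟩ := td_at hG hm ha hx T.cx
  have e : y' = x' := rm_uniq (hm x) S.rxx T.rxx
  subst e
  have a1 : G.Adj y' n := ((S.nq.nb y').2 (by simp)).symm
  rcases T.swap.cor a1 T.cn with e | e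
  · exact T.nx.xz e.symm
  · exact h3 e

/-- an `S`-vertex is a corner of at most one apex (not in a K4) -/
theorem cor_uniq (hG : G.IsRegularOfDegree 3) (hj : 1 ≤ j) (hK : CK G c j) {q w x : V}
    (hq : Apx G c q) (hk : ¬ K4 G c q) (hw : Apx G c w) (cx : c x = false) (h1 : G.Adj q x)
    (h2 : G.Adj w x) : w = q := by
  have hm := hK.1.mu1
  obtain ⟨p, x', n, n', T⟩ := td_at hG hm hq h1 cx
  rcases T.cor h2.symm (apx_col hw) with e | e
  · exact e
  · exact absurd (e ▸ hw) (out_nap hG hj hK T hk)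

/-- `K4` is symmetric -/
theorem k4_symm (hG : G.IsRegularOfDegree 3) {q p x x' : V} (T : Td G c q p x x' p p) :
    Td G c p q x x' q q := by
  have a1 : G.Adj p q := T.rqp.1.symm
  have a2 : G.Adj p x := ((T.nx.nb p).2 (by simp)).symm
  have a3 : G.Adj p x' := ((T.nx'.nb p).2 (by simp)).symm
  obtain ⟨z, hz⟩ := n3_of2 hG a1 a2 (ne_col T.cx T.cq).symm
  have e : x' = z := n3_third hz a3 (ne_col T.cx' T.cq) T.rxx.ne.symm
  subst e
  exact ⟨T.cp, T.cq, T.cx, T.cx', T.cq, T.cq, hz, n3_13 T.nx, n3_13 T.nx'⟩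

/-- the set of corners of an apex -/
def cors (G : SimpleGraph V) [DecidableRel G.Adj] (c : V → Bool) (q : V) : Finset V :=
  Finset.univ.filter (fun x => G.Adj q x ∧ c x = false)

theorem mem_cors {q x : V} : x ∈ cors G c q ↔ G.Adj q x ∧ c x = false := by
  unfold cors
  simp

theorem card_cors (hG : G.IsRegularOfDegree 3) (hm : ∀ v, mu G c v ≤ 1) {q : V}
    (h : Apx G c q) : (cors G c q).card = 2 := by
  obtain ⟨p, x, x', n, n', T⟩ := td_apx hG hm h
  have e : cors G c q = {x, x'} := by
    ext w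
    rw [mem_cors, Finset.mem_insert, Finset.mem_singleton]
    constructor
    · rintro ⟨h1, h2⟩
      exact T.apc h1 h2
    · rintro (rfl | rfl)
      · exact ⟨(T.nq.nb _).2 (by simp), T.cx⟩
      · exact ⟨(T.nq.nb _).2 (by simp), T.cx'⟩
  rw [e, Finset.card_pair T.nq.yz]

/-- the corners of a member of `Yy` are of type `D` -/
theorem yy_D (hG : G.IsRegularOfDegree 3) (hm : ∀ v, mu G c v ≤ 1) {q x : V}
    (h : Yy G c q) (hx : x ∈ cors G c q) : x ∈ Dd G c := by
  obtain ⟨h1, h2⟩ := mem_cors.1 hx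
  obtain ⟨p, x', n, n', T⟩ := td_at hG hm h.1 h1 h2
  have S : Sv G c x x' q n := ⟨T.cx, T.cx', T.cq, T.cn, n3_12 T.nx⟩
  rw [sv_Dd hm S]
  refine ⟨tQ_rm hm T.cq T.rqp, ?_⟩
  rcases tA_or_tQ hm T.cn with e | e
  · exact absurd ⟨fun _ => q, rfl, fun i hi => absurd hi (Nat.not_lt_zero i),
      ⟨p, x, x', n, n', T, e⟩⟩ (h.2.2 0)
  · exact e

theorem k4_D (hG : G.IsRegularOfDegree 3) (hm : ∀ v, mu G c v ≤ 1) {q x : V}
    (h : K4 G c q) (hx : x ∈ cors G c q) : x ∈ Dd G c := by
  obtain ⟨h1, h2⟩ := mem_cors.1 hx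
  obtain ⟨p, y, y', T⟩ := h
  have key : ∀ {y y' : V}, Td G c q p y y' p p → y ∈ Dd G c := by
    intro y y' T
    have S : Sv G c y y' q p := ⟨T.cx, T.cx', T.cq, T.cn, n3_12 T.nx⟩
    rw [sv_Dd hm S]
    exact ⟨tQ_rm hm T.cq T.rqp, tQ_rm hm T.cp T.rqp.symm⟩
  rcases T.apc h1 h2 with e | e
  · rw [e]
    exact key T
  · rw [e]
    exact key T.swap

open Classical in
/-- the count, general form -/
theorem count_gen (hG : G.IsRegularOfDegree 3) (hj : 1 ≤ j) (hE : Exm G c j) (f : V → V)
    (Rest : Finset V) (hf : ∀ q, E34 G c q → f q ∈ Dd G c ∧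
      ∀ w, Apx G c w → (Yy G c w ∨ K4 G c w) → ¬ G.Adj w (f q))
    (hinj : ∀ q q', E34 G c q → E34 G c q' → f q = f q' → q = q')
    (hR : ∀ v ∈ Rest, v ∈ Dd G c ∧ (∀ w, Apx G c w → ¬ G.Adj w v) ∧ ∀ q, E34 G c q → f q ≠ v) :
    Ta G c + Rest.card ≤ (Dd G c).card + (Q0 G c).card := by
  have hK := hE.ck
  have hm := hK.1.mu1
  set AP := Finset.univ.filter (fun q => Apx G c q) with hAP
  set KK := Finset.univ.filter (fun q => Apx G c q ∧ K4 G c q) with hKK
  set YY := Finset.univ.filter (fun q => Yy G c q) with hYY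
  set EE := Finset.univ.filter (fun q => E34 G c q) with hEE
  set E1 := Finset.univ.filter (fun q => Apx G c q ∧ ¬ K4 G c q ∧ ¬ Yy G c q ∧
    ∃ p, Rm G c q p ∧ Apx G c p) with hE1
  set E2 := Finset.univ.filter (fun q => Apx G c q ∧ ¬ K4 G c q ∧
    ∃ p, Rm G c q p ∧ p ∈ Q0 G c) with hE2
  have hcov : AP ⊆ KK ∪ (YY ∪ (E1 ∪ (E2 ∪ EE))) := by
    intro q hq
    simp only [hAP, Finset.mem_filter, Finset.mem_univ, true_and] at hq
    simp only [hKK, hYY, hE1, hE2, hEE, Finset.mem_union, Finset.mem_filter, Finset.mem_univ,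
      true_and]
    by_cases h1 : K4 G c q
    · exact Or.inl ⟨hq, h1⟩
    right
    by_cases h2 : Yy G c q
    · exact Or.inl h2
    right
    obtain ⟨p, hp⟩ := exists_mate (apx_tQ hq).2
    by_cases h3 : Apx G c p
    · exact Or.inl ⟨hq, h1, h2, p, hp, h3⟩
    right
    have cp : c p = true := by rw [hp.2, apx_col hq]
    have tp : tQ G c p := tQ_rm hm cp hp.symm
    by_cases h4 : ∃ u, G.Adj p u ∧ tS G c u
    · right
      obtain ⟨u, hu, hu'⟩ := h4
      have h5 : ∃ m, Acc G c m q := by
        by_contra h5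
        push Not at h5
        exact h2 ⟨hq, h1, h5⟩
      exact ⟨hq, h1, h5, p, u, hp, h3, hu, hu'⟩
    · left
      refine ⟨hq, h1, p, hp, ?_⟩
      rw [mem_Q0]
      refine ⟨tp, ?_⟩
      unfold nS
      rw [Finset.card_eq_zero, Finset.filter_eq_empty_iff]
      intro u _ hu
      exact h4 ⟨u, hu.1, hu.2⟩
  have hTa : Ta G c = AP.card := rfl
  have c0 : AP.card ≤ KK.card + (YY.card + (E1.card + (E2.card + EE.card))) := by
    refine (Finset.card_le_card hcov).trans ((Finset.card_union_le _ _).trans ?_)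
    refine Nat.add_le_add_left ((Finset.card_union_le _ _).trans ?_) _
    refine Nat.add_le_add_left ((Finset.card_union_le _ _).trans ?_) _
    exact Nat.add_le_add_left (Finset.card_union_le _ _) _
  -- E1
  have c1 : E1.card ≤ YY.card := by
    have hex : ∀ q : V, ∃ p : V, q ∈ E1 → Rm G c q p ∧ Apx G c p := by
      intro q
      by_cases h : q ∈ E1
      · have h' := h
        simp only [hE1, Finset.mem_filter, Finset.mem_univ, true_and] at h'
        obtain ⟨_, _, _, p, h1, h2⟩ := h'
        exact ⟨p, fun _ => ⟨h1, h2⟩⟩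
      · exact ⟨q, fun h1 => absurd h1 h⟩
    choose g hg using hex
    refine Finset.card_le_card_of_injOn g ?_ ?_
    · intro q hq
      obtain ⟨h1, h2⟩ := hg q hq
      have hq' : q ∈ E1 := hq
      simp only [hE1, Finset.mem_filter, Finset.mem_univ, true_and] at hq'
      obtain ⟨h3, h4, h5, _⟩ := hq'
      simp only [hYY, Finset.coe_filter, Finset.mem_univ, true_and, Set.mem_ofPred_eq]
      have hacc : ∃ m, Acc G c m q := by
        by_contra h6
        push Not at h6
        exact h5 ⟨h3, h4, h6⟩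
      obtain ⟨m, hm'⟩ := hacc
      refine ⟨h2, ?_, fun m' h7 => c6' V G hG c j hj hE m m' q (g q) h3 h2 h1 hm' h7⟩
      rintro ⟨p, x, x', T⟩
      have e : p = q := rm_uniq (hm (g q)) T.rqp h1.symm
      subst e
      exact h4 ⟨_, _, _, k4_symm hG T⟩
    · intro q hq q' hq' e
      have h1 := (hg q hq).1
      have h2 := (hg q' hq').1
      rw [← e] at h2
      exact rm_uniq (hm (g q)) h1.symm h2.symm
  -- E2
  have c2 : E2.card ≤ (Q0 G c).card := by
    have hex : ∀ q : V, ∃ p : V, q ∈ E2 → Rm G c q p ∧ p ∈ Q0 G c := by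
      intro q
      by_cases h : q ∈ E2
      · have h' := h
        simp only [hE2, Finset.mem_filter, Finset.mem_univ, true_and] at h'
        obtain ⟨_, _, p, h1, h2⟩ := h'
        exact ⟨p, fun _ => ⟨h1, h2⟩⟩
      · exact ⟨q, fun h1 => absurd h1 h⟩
    choose g hg using hex
    refine Finset.card_le_card_of_injOn g (fun q hq => (hg q hq).2) ?_
    intro q hq q' hq' e
    have h1 := (hg q hq).1
    have h2 := (hg q' hq').1
    rw [← e] at h2
    exact rm_uniq (hm (g q)) h1.symm h2.symm
  -- corners of Y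
  have c3 : (YY.biUnion (fun q => cors G c q)).card = YY.card * 2 := by
    rw [Finset.card_biUnion]
    · rw [Finset.sum_const_nat]
      intro q hq
      simp only [hYY, Finset.mem_filter, Finset.mem_univ, true_and] at hq
      exact card_cors hG hm hq.1
    · intro q hq q' hq' hne
      simp only [hYY, Finset.coe_filter, Finset.mem_univ, true_and, Set.mem_ofPred_eq] at hq hq'
      change Disjoint (cors G c q) (cors G c q')
      rw [Finset.disjoint_left]
      intro x hx hx'
      rw [mem_cors] at hx hx'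
      exact hne (cor_uniq hG hj hK hq'.1 hq'.2.1 hq.1 hx.2 hx'.1 hx.1)
  -- corners of K4
  have c4 : KK.card * 2 = (KK.biUnion (fun q => cors G c q)).card * 2 := by
    refine Finset.card_mul_eq_card_mul (fun q x => G.Adj q x) ?_ ?_
    · intro q hq
      simp only [hKK, Finset.mem_filter, Finset.mem_univ, true_and] at hq
      rw [← card_cors hG hm hq.1]
      congr 1
      ext x
      simp only [Finset.mem_bipartiteAbove, Finset.mem_biUnion, mem_cors]
      constructor
      · rintro ⟨⟨w, hw, h1, h2⟩, h3⟩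
        exact ⟨h3, h2⟩
      · rintro ⟨h1, h2⟩
        exact ⟨⟨q, by simp [hKK, hq], h1, h2⟩, h1⟩
    · intro x hx
      rw [Finset.mem_biUnion] at hx
      obtain ⟨q, hq, hx⟩ := hx
      rw [mem_cors] at hx
      simp only [hKK, Finset.mem_filter, Finset.mem_univ, true_and] at hq
      obtain ⟨hqa, p, y, y', T⟩ := hq
      have key : ∀ {y y' : V}, Td G c q p y y' p p → (KK.bipartiteBelow (fun q x => G.Adj q x) y).card
          = 2 := by
        intro y y' T
        have T' := k4_symm hG T
        have e : KK.bipartiteBelow (fun q x => G.Adj q x) y = {q, p} := by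
          ext w
          simp only [Finset.mem_bipartiteBelow, Finset.mem_insert, Finset.mem_singleton, hKK,
            Finset.mem_filter, Finset.mem_univ, true_and]
          constructor
          · rintro ⟨⟨h1, h2⟩, h3⟩
            exact T.cor h3.symm (apx_col h1)
          · rintro (rfl | rfl)
            · exact ⟨⟨hqa, _, _, _, T⟩, (T.nq.nb _).2 (by simp)⟩
            · exact ⟨⟨T'.apx hm, _, _, _, T'⟩, (T'.nq.nb _).2 (by simp)⟩
        rw [e, Finset.card_pair T.rqp.ne]
      rcases T.apc hx.1 hx.2 with e | e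
      · rw [e]
        exact key T
      · rw [e]
        exact key T.swap
  -- the image of `f`
  have c5 : (EE.image f).card = EE.card := by
    refine Finset.card_image_of_injOn ?_
    intro q hq q' hq' e
    simp only [hEE, Finset.coe_filter, Finset.mem_univ, true_and, Set.mem_ofPred_eq] at hq hq'
    exact hinj q q' hq hq' e
  -- disjointness
  have d1 : Disjoint (YY.biUnion (fun q => cors G c q)) (KK.biUnion (fun q => cors G c q)) := by
    rw [Finset.disjoint_left]
    intro x hx hx'
    rw [Finset.mem_biUnion] at hx hx'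
    obtain ⟨q, hq, h1⟩ := hx
    obtain ⟨q', hq', h2⟩ := hx'
    simp only [hYY, hKK, Finset.mem_filter, Finset.mem_univ, true_and] at hq hq'
    rw [mem_cors] at h1 h2
    have e := cor_uniq hG hj hK hq.1 hq.2.1 hq'.1 h1.2 h1.1 h2.1
    rw [e] at hq'
    exact hq.2.1 hq'.2
  have d2 : Disjoint (YY.biUnion (fun q => cors G c q) ∪ KK.biUnion (fun q => cors G c q))
      (EE.image f) := by
    rw [Finset.disjoint_left]
    intro x hx hx'
    rw [Finset.mem_image] at hx'
    obtain ⟨q, hq, rfl⟩ := hx'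
    simp only [hEE, Finset.mem_filter, Finset.mem_univ, true_and] at hq
    rw [Finset.mem_union, Finset.mem_biUnion, Finset.mem_biUnion] at hx
    rcases hx with ⟨w, hw, h1⟩ | ⟨w, hw, h1⟩
    · simp only [hYY, Finset.mem_filter, Finset.mem_univ, true_and] at hw
      exact (hf q hq).2 w hw.1 (Or.inl hw) (mem_cors.1 h1).1
    · simp only [hKK, Finset.mem_filter, Finset.mem_univ, true_and] at hw
      exact (hf q hq).2 w hw.1 (Or.inr hw.2) (mem_cors.1 h1).1
  have d3 : Disjoint (YY.biUnion (fun q => cors G c q) ∪ KK.biUnion (fun q => cors G c q) ∪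
      EE.image f) Rest := by
    rw [Finset.disjoint_left]
    intro x hx hx'
    have h0 := hR x hx'
    rw [Finset.mem_union, Finset.mem_union, Finset.mem_biUnion, Finset.mem_biUnion,
      Finset.mem_image] at hx
    rcases hx with (⟨w, hw, h1⟩ | ⟨w, hw, h1⟩) | ⟨q, hq, h1⟩
    · simp only [hYY, Finset.mem_filter, Finset.mem_univ, true_and] at hw
      exact h0.2.1 w hw.1 (mem_cors.1 h1).1
    · simp only [hKK, Finset.mem_filter, Finset.mem_univ, true_and] at hw
      exact h0.2.1 w hw.1 (mem_cors.1 h1).1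
    · simp only [hEE, Finset.mem_filter, Finset.mem_univ, true_and] at hq
      exact h0.2.2 q hq h1
  have hsub : YY.biUnion (fun q => cors G c q) ∪ KK.biUnion (fun q => cors G c q) ∪
      EE.image f ∪ Rest ⊆ Dd G c := by
    intro x hx
    rw [Finset.mem_union, Finset.mem_union, Finset.mem_union, Finset.mem_biUnion,
      Finset.mem_biUnion, Finset.mem_image] at hx
    rcases hx with ((⟨w, hw, h1⟩ | ⟨w, hw, h1⟩) | ⟨q, hq, h1⟩) | h1
    · simp only [hYY, Finset.mem_filter, Finset.mem_univ, true_and] at hw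
      exact yy_D hG hm hw h1
    · simp only [hKK, Finset.mem_filter, Finset.mem_univ, true_and] at hw
      exact k4_D hG hm hw.2 h1
    · simp only [hEE, Finset.mem_filter, Finset.mem_univ, true_and] at hq
      rw [← h1]
      exact (hf q hq).1
    · exact (hR x h1).1
  have c6 := Finset.card_le_card hsub
  rw [Finset.card_union_of_disjoint d3, Finset.card_union_of_disjoint d2,
    Finset.card_union_of_disjoint d1, c3, c5] at c6
  rw [hTa]
  omega

end

end Pool.Agent.Helper96.MC
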