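import Mathlib
import Pool.Agent.Helper96.MC.Cnt

/-!
MP_4042d8_co, section C: the payer map and row CC.
-/

set_option autoImplicit false
set_option linter.unusedSectionVars false
set_option linter.unusedSimpArgs false
set_option linter.unusedVariables false

namespace Pool.Agent.Helper96.MC

open Pool.Agent.Helper27.MC
open Pool.Agent.Helper51.MC Pool.Agent.Helper88.MC Pool.Agent.Helper64.MC
open Pool.Agent.Helper91.MC Pool.Agent.Helper42.MC

section

variable {V : Type} [Fintype V] [DecidableEq V] {G : SimpleGraph V} [DecidableRel G.Adj]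
  {c : V → Bool} {j : ℕ}

variable (G) in
/-- a spare corner: a corner of type `D` whose outer neighbour is not the mate of an apex outside
`Yy` -/
def Gc (c : V → Bool) (q d : V) : Prop :=
  G.Adj q d ∧ d ∈ Dd G c ∧
    ∀ w n, G.Adj d n → n ≠ q → Apx G c w → Rm G c w n → Yy G c w

variable (G) in
/-- payers -/
def PF (c : V → Bool) (q d : V) : Prop :=
  Gc G c q d ∨ ((∀ d', ¬ Gc G c q d') ∧ d ∈ Dd G c ∧ ∃ p, Rm G c q p ∧ G.Adj p d)

theorem Dd_col {d : V} (h : d ∈ Dd G c) : c d = false := (mem_Dd.1 h).1.1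

theorem Td.sv {q p x x' n n' : V} (T : Td G c q p x x' n n') : Sv G c x x' q n :=
  ⟨T.cx, T.cx', T.cq, T.cn, n3_12 T.nx⟩

theorem Td.D (hm : ∀ v, mu G c v ≤ 1) {q p x x' n n' : V} (T : Td G c q p x x' n n')
    (h : tQ G c n) : x ∈ Dd G c := by
  rw [sv_Dd hm T.sv]
  exact ⟨tQ_rm hm T.cq T.rqp, h⟩

theorem Td.T (hm : ∀ v, mu G c v ≤ 1) {q p x x' n n' : V} (T : Td G c q p x x' n n')
    (h : tA G c n) : x ∈ Pool.Agent.Helper64.MC.T1 G c := by
  rw [sv_T1 hm T.sv]
  exact Or.inr ⟨tQ_rm hm T.cq T.rqp, h⟩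

theorem acc_succ {m : ℕ} {w q : V} (h : Ch G c w q) (h' : Acc G c m q) : Acc G c (m + 1) w := by
  obtain ⟨g, g0, g1, g2⟩ := h'
  refine ⟨fun i => if i = 0 then w else g (i - 1), by simp, ?_, by simpa using g2⟩
  intro i hi
  by_cases h0 : i = 0
  · subst h0
    simpa [g0] using h
  · have : i + 1 - 1 = (i - 1) + 1 := by omega
    simp only [h0, if_false, Nat.succ_ne_zero, this]
    exact g1 (i - 1) (by omega)

/-- existence of payers -/
theorem pf_ex (hG : G.IsRegularOfDegree 3) (hj : 1 ≤ j) (hE : Exm G c j) {q : V}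
    (hq : E34 G c q) : ∃ d, PF G c q d := by
  have hK := hE.ck
  have hm := hK.1.mu1
  by_cases hg : ∃ d, Gc G c q d
  · obtain ⟨d, hd⟩ := hg
    exact ⟨d, Or.inl hd⟩
  push Not at hg
  obtain ⟨ha, hk, _, p, u, hp, hap, hpu, hu⟩ := hq
  obtain ⟨m, b, S⟩ := sv_ex hG hu hpu.symm (by rw [hp.2, apx_col ha])
  have aub : G.Adj u b := (S.n3.nb b).2 (by simp)
  have tQp : tQ G c p := tQ_rm hm (by rw [hp.2, apx_col ha]) hp.symm
  rcases C2 V G hG c j hj hK q p u b ha hp hap hpu hu aub S.n3.yz.symm S.cb with h | h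
  · exact ⟨u, Or.inr ⟨hg, (sv_Dd hm S).2 ⟨tQp, h⟩, p, hp, hpu⟩⟩
  · exfalso
    obtain ⟨p', x, x', n, n', T⟩ := td_apx hG hm ha
    have e : p' = p := rm_uniq (hm q) T.rqp hp
    subst e
    obtain ⟨h1, h2⟩ := c7' V G hG c j hj hE q p' x x' n n' u b T hap hpu hu aub S.n3.yz.symm
      h.1 h.2
    obtain ⟨e1, e2, e3⟩ := nk4 hG hj hK T hk
    have key : ∀ {x x' n n' : V}, Td G c q p' x x' n n' → n ≠ p' → tQ G c n → False := by
      intro x x' n n' T hn hQ
      refine hg x ⟨(T.nq.nb x).2 (by simp), T.D hm hQ, ?_⟩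
      intro w n2 h3 h4 h5 h6
      have cn2 : c n2 = true := by rw [h6.2, apx_col h5]
      rcases T.cor h3 cn2 with e | e
      · exact absurd e h4
      · subst e
        exact absurd ⟨p', x, x', n2, n', T, hn, h5, h6⟩ (h1 w)
    rcases tA_or_tQ hm T.cn with h3 | h3
    · rcases tA_or_tQ hm T.cn' with h4 | h4
      · exact h2 ⟨h3, h4⟩
      · exact key T.swap e2 h4
    · exact key T e1 h3

/-- payers are not corners of the members of `Yy` or of K4's -/
theorem pf_nc (hG : G.IsRegularOfDegree 3) (hj : 1 ≤ j) (hK : CK G c j) {q d w : V}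
    (hq : E34 G c q) (h : PF G c q d) (hw : Apx G c w) (hy : Yy G c w ∨ K4 G c w) :
    ¬ G.Adj w d := by
  intro hwd
  have hm := hK.1.mu1
  obtain ⟨ha, hk, ⟨m, hacc⟩, p, u, hp, hap, hpu, hu⟩ := hq
  rcases h with h | ⟨_, h1, p', hp', hpd⟩
  · have e := cor_uniq hG hj hK ha hk hw (Dd_col h.2.1) h.1 hwd
    subst e
    rcases hy with hy | hy
    · exact hy.2.2 m hacc
    · exact hk hy
  · have e : p' = p := rm_uniq (hm q) hp' hp
    subst e
    have cd := Dd_col h1
    have cp : c p' = true := by rw [hp.2, apx_col ha]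
    rcases hy with hy | hy
    · obtain ⟨pw, x', n, n', T⟩ := td_at hG hm hw hwd cd
      rcases T.cor hpd.symm cp with e | e
      · exact hap (e ▸ hw)
      · subst e
        exact hy.2.2 (m + 1) (acc_succ ⟨pw, d, x', p', n', T, (nk4 hG hj hK T hy.2.1).1, ha, hp⟩
          hacc)
    · obtain ⟨pw, x, x', T⟩ := hy
      have key : ∀ {x x' : V}, Td G c w pw x x' pw pw → d = x → False := by
        intro x x' T e
        subst e
        rcases T.cor hpd.symm cp with e | e
        · exact hap (e ▸ hw)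
        · exact hap (e ▸ (k4_symm hG T).apx hm)
      rcases T.apc hwd cd with e | e
      · exact key T e
      · exact key T.swap e

/-- payers are different -/
theorem pf_inj (hG : G.IsRegularOfDegree 3) (hj : 1 ≤ j) (hK : CK G c j) {q q' d : V}
    (hq : E34 G c q) (hq' : E34 G c q') (h : PF G c q d) (h' : PF G c q' d) : q = q' := by
  have hm := hK.1.mu1
  have key : ∀ {q q' : V}, E34 G c q → E34 G c q' → Gc G c q d → (∃ p, Rm G c q' p ∧
      G.Adj p d) → False := by
    intro q q' hq hq' h h'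
    obtain ⟨ha, hk, ⟨m, hacc⟩, p, u, hp, hap, hpu, hu⟩ := hq
    obtain ⟨ha', hk', ⟨m', hacc'⟩, p', u', hp', hap', hpu', hu'⟩ := hq'
    obtain ⟨p2, h1, h2⟩ := h'
    have e : p2 = p' := rm_uniq (hm q') h1 hp'
    subst e
    have hne : p2 ≠ q := by
      rintro rfl
      exact hap' ha
    exact (h.2.2 q' p2 h2.symm hne ha' hp').2.2 m' hacc'
  rcases h with h | h <;> rcases h' with h' | h'
  · exact (cor_uniq hG hj hK hq.1 hq.2.1 hq'.1 (Dd_col h.2.1) h.1 h'.1).symm
  · exact (key hq hq' h h'.2.2).elim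
  · exact (key hq' hq h' h.2.2).elim
  · by_contra hne
    obtain ⟨ha, hk, ⟨m, hacc⟩, p, u, hp, hap, hpu, hu⟩ := hq
    obtain ⟨ha', hk', ⟨m', hacc'⟩, p', u', hp', hap', hpu', hu'⟩ := hq'
    obtain ⟨_, h1, p1, h2, h3⟩ := h
    obtain ⟨_, _, p2, h5, h6⟩ := h'
    have e1 : p1 = p := rm_uniq (hm q) h2 hp
    have e2 : p2 = p' := rm_uniq (hm q') h5 hp'
    subst e1 e2
    exact c4' V G hG c j hj hK m q q' p1 p2 d ha ha' hne hp hp' hap hap' (mem_Dd.1 h1).1
      h3.symm h6.symm hacc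

end

/-- row CC -/
theorem CC : ST_CC := by
  intro V _ _ G _ hG c j hj hE
  have hex : ∀ q : V, ∃ d : V, E34 G c q → PF G c q d := by
    intro q
    by_cases h : E34 G c q
    · obtain ⟨d, hd⟩ := pf_ex hG hj hE h
      exact ⟨d, fun _ => hd⟩
    · exact ⟨q, fun h' => absurd h' h⟩
  choose f hf using hex
  have h1 := count_gen hG hj hE f ∅ (fun q hq => ⟨?_, fun w hw hy =>
    pf_nc hG hj hE.ck hq (hf q hq) hw hy⟩) (fun q q' hq hq' e => pf_inj hG hj hE.ck hq hq'
      (hf q hq) (e ▸ hf q' hq')) (fun v hv => absurd hv (Finset.notMem_empty v))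
  · simpa using h1
  · rcases hf q hq with h | h
    · exact h.2.1
    · exact h.2.1

end Pool.Agent.Helper96.MC
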