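import Mathlib
import Pool.Agent.Helper96.MC.CC
import Pool.Agent.Helper72.MC.F12
import Pool.Agent.Helper53.MC.SIX

/-!
MP_4042d8_co, section C: row L (the relation between bad vertices and sources).
-/

set_option autoImplicit false
set_option linter.unusedSectionVars false
set_option linter.unusedSimpArgs false
set_option linter.unusedVariables false

namespace Pool.Agent.Helper96.MC

open Pool.Agent.Helper27.MC hiding Fr T1
open Pool.Agent.Helper51.MC Pool.Agent.Helper88.MC Pool.Agent.Helper64.MC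
open Pool.Agent.Helper91.MC Pool.Agent.Helper42.MC

section

variable {V : Type} [Fintype V] [DecidableEq V] {G : SimpleGraph V} [DecidableRel G.Adj]
  {c : V → Bool} {j : ℕ}

variable (G) in
/-- `v` is a bad payer of `q` -/
def Zq (c : V → Bool) (v q : V) : Prop :=
  E34 G c q ∧ (∀ d', ¬ Gc G c q d') ∧ Bd G c v ∧ ∃ p, Rm G c q p ∧ G.Adj p v

variable (G) in
/-- `S` consists of corners of descendants of `q` -/
def Sp (c : V → Bool) (q : V) (S : V → Prop) : Prop :=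
  ∀ y, S y → ∃ w p y' n n' d, Relation.ReflTransGen (Ch G c) q w ∧ Td G c w p y y' n n' ∧
    tA G c n ∧ ¬ Apx G c p ∧ G.Adj p d ∧ d ∈ Dd G c

/-- data of a free vertex -/
theorem fr_dat (hG : G.IsRegularOfDegree 3) (hm : ∀ v, mu G c v ≤ 1) {f a : V}
    (hf : f ∈ Fr G c) (h : G.Adj f a) (ca : c a = true) :
    ∃ m b, Sv G c f m a b ∧ tA G c a ∧ tA G c b := by
  obtain ⟨m, b, S⟩ := sv_ex hG (mem_Fr.1 hf).1 h ca
  exact ⟨m, b, S, (sv_Fr hm S).1 hf⟩

/-- a free vertex is not a corner -/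
theorem fr_ne (hG : G.IsRegularOfDegree 3) (hm : ∀ v, mu G c v ≤ 1) {f q p x x' n n' : V}
    (hf : f ∈ Fr G c) (T : Td G c q p x x' n n') : f ≠ x := by
  rintro rfl
  exact tA_not_tQ ((sv_Fr hm T.sv).1 hf).1 (tQ_rm hm T.cq T.rqp)

/-- a child has a parent outside the complete graphs -/
theorem ch_nk4 (hm : ∀ v, mu G c v ≤ 1) {q w : V} (h : Ch G c q w) : ¬ K4 G c q := by
  rintro ⟨p, y, y', T⟩
  obtain ⟨p1, x, x', n, n', X, hn, hw, hwn⟩ := h
  have e : p1 = p := rm_uniq (hm q) X.rqp T.rqp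
  subst e
  have key : ∀ {y y' : V}, Td G c q p1 y y' p1 p1 → x = y → False := by
    intro y y' T e
    subst e
    rcases T.cor ((X.nx.nb n).2 (by simp)) X.cn with e | e
    · exact X.nx.xz e.symm
    · exact hn e
  rcases T.apc ((X.nq.nb x).2 (by simp)) X.cx with e | e
  · exact key T e
  · exact key T.swap e

/-- an outer neighbour of type `A` -/
theorem nk4_of (hm : ∀ v, mu G c v ≤ 1) {q p x x' n n' : V} (T : Td G c q p x x' n n')
    (h : tA G c n) : ¬ K4 G c q := by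
  rintro ⟨p1, y, y', X⟩
  have e : p1 = p := rm_uniq (hm q) X.rqp T.rqp
  subst e
  have key : ∀ {y y' : V}, Td G c q p1 y y' p1 p1 → x = y → False := by
    intro y y' X e
    subst e
    rcases X.cor ((T.nx.nb n).2 (by simp)) T.cn with e | e
    · exact T.nx.xz e.symm
    · subst e
      exact tA_not_tQ h (tQ_rm hm T.cn T.rqp.symm)
  rcases X.apc ((T.nq.nb x).2 (by simp)) T.cx with e | e
  · exact key X e
  · exact key X.swap e

/-- the mate of a child is not an apex -/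
theorem ch_nap (hG : G.IsRegularOfDegree 3) (hj : 1 ≤ j) (hK : CK G c j) {q w p : V}
    (h : Ch G c q w) (hp : Rm G c w p) : ¬ Apx G c p := by
  have hk := ch_nk4 hK.1.mu1 h
  obtain ⟨p1, x, x', n, n', X, hn, hw, hwn⟩ := h
  have e : n = p := rm_uniq (hK.1.mu1 w) hwn hp
  subst e
  exact out_nap hG hj hK X hk

/-- `Ch` gives an apex -/
theorem ch_apx (hm : ∀ v, mu G c v ≤ 1) {q w : V} (h : Ch G c q w) : Apx G c q ∧ Apx G c w := by
  obtain ⟨p1, x, x', n, n', X, hn, hw, hwn⟩ := h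
  exact ⟨X.apx hm, hw⟩

/-- parents are unique -/
theorem par_uniq (hG : G.IsRegularOfDegree 3) (hj : 1 ≤ j) (hK : CK G c j) {q q' w : V}
    (h : Ch G c q w) (h' : Ch G c q' w) : q' = q := by
  have hm := hK.1.mu1
  have hk := ch_nk4 hm h
  obtain ⟨p, x, x', n, n', X, hn, hw, hwn⟩ := h
  obtain ⟨p1, y, y', l, l', Y, hl, _, hwl⟩ := h'
  have e : l = n := rm_uniq (hm w) hwl hwn
  subst e
  have a1 : G.Adj l x := ((X.nx.nb l).2 (by simp)).symm
  have a2 : G.Adj l y := ((Y.nx.nb l).2 (by simp)).symm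
  have aq : G.Adj q y := by
    by_cases hxy : x = y
    · rw [← hxy]
      exact (X.nq.nb x).2 (by simp)
    · have r := F1 hG hj hK.1 (tQ_rm hm X.cn hwn.symm) (tS_rm hm X.cx X.rxx)
        (tS_rm hm Y.cx Y.rxx) a1 a2 hxy
      have e : y = x' := rm_uniq (hm x) r X.rxx
      rw [e]
      exact (X.nq.nb x').2 (by simp)
  exact cor_uniq hG hj hK (X.apx hm) hk (Y.apx hm) Y.cx aq ((Y.nq.nb y).2 (by simp))

/-- common descendants of two roots -/
theorem desc_uniq (hG : G.IsRegularOfDegree 3) (hj : 1 ≤ j) (hK : CK G c j) {q q' w : V}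
    (h : Relation.ReflTransGen (Ch G c) q w) (h' : Relation.ReflTransGen (Ch G c) q' w)
    (hq : ∀ r, ¬ Ch G c r q) (hq' : ∀ r, ¬ Ch G c r q') : q = q' := by
  induction h with
  | refl =>
    rcases Relation.ReflTransGen.cases_tail h' with e | ⟨r, _, hr⟩
    · exact e
    · exact absurd hr (hq r)
  | tail h1 h2 ih =>
    rcases Relation.ReflTransGen.cases_tail h' with e | ⟨r, hr1, hr⟩
    · subst e
      exact absurd h2 (hq' _)
    · have e := par_uniq hG hj hK h2 hr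
      subst e
      exact ih hr1

/-- a bad vertex is not a corner -/
theorem bd_nc (hG : G.IsRegularOfDegree 3) (hm : ∀ v, mu G c v ≤ 1) {v w : V} (h : Bd G c v)
    (hw : Apx G c w) : ¬ G.Adj w v := by
  intro a
  obtain ⟨hv, s, hs, hf⟩ := h
  obtain ⟨p, x', n, n', T⟩ := td_at hG hm hw a (Dd_col hv)
  have e : s = x' := rm_uniq (hm v) hs T.rxx
  exact fr_ne hG hm hf T.swap e

/-- an apex with a bad payer has no parent -/
theorem zq_root (hG : G.IsRegularOfDegree 3) (hj : 1 ≤ j) (hK : CK G c j) {v q : V}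
    (h : Zq G c v q) (r : V) : ¬ Ch G c r q := by
  intro hr
  have hm := hK.1.mu1
  obtain ⟨hE, _, hb, p, hp, hpv⟩ := h
  have hnap := ch_nap hG hj hK hr hp
  have hr' := hr
  obtain ⟨p1, x, x', n, n', X, hn, hw, hwn⟩ := hr'
  have e : n = p := rm_uniq (hm q) hwn hp
  subst e
  have a1 : G.Adj n x := ((X.nx.nb n).2 (by simp)).symm
  have tv : tS G c v := (mem_Dd.1 hb.1).1
  by_cases hxv : x = v
  · subst hxv
    exact bd_nc hG hm hb (X.apx hm) ((X.nq.nb x).2 (by simp))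
  · have r1 := F1 hG hj hK.1 (tQ_rm hm X.cn hwn.symm) (tS_rm hm X.cx X.rxx) tv a1 hpv hxv
    exact hnap ⟨x, v, tQ_rm hm X.cn hwn.symm, a1, hpv, r1, X.cx⟩

/-- the apex of a bad payer is unique -/
theorem zq_uniq (hG : G.IsRegularOfDegree 3) (hj : 1 ≤ j) (hK : CK G c j) {v q q' : V}
    (h : Zq G c v q) (h' : Zq G c v q') : q = q' := by
  have hm := hK.1.mu1
  by_contra hne
  obtain ⟨⟨ha, hk, ⟨m, hacc⟩, p, u, hp, hap, hpu, hu⟩, _, hb, p1, h1, h2⟩ := h
  obtain ⟨⟨ha', hk', ⟨m', hacc'⟩, p', u', hp', hap', hpu', hu'⟩, _, _, p2, h3, h4⟩ := h'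
  have e1 : p1 = p := rm_uniq (hm q) h1 hp
  have e2 : p2 = p' := rm_uniq (hm q') h3 hp'
  subst e1 e2
  exact c4' V G hG c j hj hK m q q' p1 p2 v ha ha' hne hp hp' hap hap' (mem_Dd.1 hb.1).1
    h2.symm h4.symm hacc

/-- the bad payer of an apex is unique -/
theorem zq_uniq' (hG : G.IsRegularOfDegree 3) (hj : 1 ≤ j) (hK : CK G c j) {v v' q : V}
    (h : Zq G c v q) (h' : Zq G c v' q) : v = v' := by
  have hm := hK.1.mu1
  by_contra hne
  obtain ⟨⟨ha, hk, _, p, u, hp, hap, hpu, hu⟩, _, hb, p1, h1, h2⟩ := h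
  obtain ⟨_, _, hb', p2, h3, h4⟩ := h'
  have e1 : p1 = p := rm_uniq (hm q) h1 hp
  have e2 : p2 = p := rm_uniq (hm q) h3 hp
  subst e1 e2
  have cp : c p2 = true := by rw [hp.2, apx_col ha]
  have tp := tQ_rm hm cp hp.symm
  have r := F1 hG hj hK.1 tp (mem_Dd.1 hb.1).1 (mem_Dd.1 hb'.1).1 h2 h4 hne
  exact hap ⟨v, v', tp, h2, h4, r, Dd_col hb.1⟩

/-- accessible: some descendant has a corner with outer neighbour of type `A` -/
theorem acc_desc {m : ℕ} {q : V} (h : Acc G c m q) :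
    ∃ w, Relation.ReflTransGen (Ch G c) q w ∧ Ac G c w := by
  obtain ⟨g, g0, g1, g2⟩ := h
  have key : ∀ i, i ≤ m → Relation.ReflTransGen (Ch G c) q (g i) := by
    intro i
    induction i with
    | zero =>
      intro _
      rw [g0]
    | succ i ih =>
      intro hi
      exact (ih (by omega)).tail (g1 i (by omega))
  exact ⟨g m, key m le_rfl, g2⟩

/-- the third neighbour is of type `B` -/
theorem third_B (h6 : ST_SIX) (hG : G.IsRegularOfDegree 3) (hj : 2 ≤ j) (hK : CK G c j)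
    {q p x x' n n' u1 u2 : V} (T : Td G c q p x x' n n') (hap : ¬ Apx G c p) (hn : tA G c n)
    (hn' : tA G c n') (h1 : G.Adj n u1) (h2 : G.Adj n' u2) (f1 : u1 ∈ Fr G c)
    (f2 : u2 ∈ Fr G c) : ∃ z, N3 G n x u1 z ∧ tB G c z := by
  have hm := hK.1.mu1
  have r12 := h6 V G hG c j hj hK q p x x' n n' u1 u2 T hap hn hn' h1 h2 f1 f2
  obtain ⟨e1, e2, e3⟩ := nk4 hG (by omega) hK T (nk4_of hm T hn)
  have hx : G.Adj n x := ((T.nx.nb n).2 (by simp)).symm
  obtain ⟨z, N⟩ := n3_of2 hG hx h1 (fr_ne hG hm f1 T).symm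
  refine ⟨z, N, ?_⟩
  have hnz : G.Adj n z := (N.nb z).2 (by simp)
  have cz : c z = false := by
    cases hc : c z
    · rfl
    · exact absurd ⟨hnz, by rw [hc, hn.1]⟩ ((tA_iff.1 hn).2 z)
  refine tB_iff.2 ⟨cz, fun w hw => ?_⟩
  have tz : tS G c z := (tS_iff hm).2 ⟨cz, w, hw⟩
  have tx := tS_rm hm T.cx T.rxx
  have tu : tS G c u1 := (mem_Fr.1 f1).1
  rcases Pool.Agent.Helper72.MC.st_F2 V G hG c j hK.1 hj n x u1 z hn hx h1 hnz N.xy N.xz N.yz
    tx tu tz with h | h | h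
  · have e : u1 = x' := rm_uniq (hm x) ⟨h, by rw [tu.1, tx.1]⟩ T.rxx
    exact fr_ne hG hm f1 T.swap e
  · have e : z = x' := rm_uniq (hm x) ⟨h, by rw [tz.1, tx.1]⟩ T.rxx
    subst e
    rcases T.swap.cor hnz.symm T.cn with e | e
    · exact T.nx.xz e.symm
    · exact e3 e
  · have e : z = u2 := rm_uniq (hm u1) ⟨h, by rw [tz.1, tu.1]⟩ r12
    subst e
    exact (h6 V G hG c j hj hK q p x x' n n' z z T hap hn hn' hnz h2 f2 f2).1.ne rfl

/-- sources exist -/
theorem src_ex (h6 : ST_SIX) (hG : G.IsRegularOfDegree 3) (hj : 2 ≤ j) (hK : CK G c j) {v q : V}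
    (h : Zq G c v q) : ∃ S : V → Prop, Sp G c q S ∧ (∃ y, S y) ∧
      (Lp G c (fun _ => S) v ∨ Lpp G c (fun _ => S) v) := by
  have hm := hK.1.mu1
  have hj1 : 1 ≤ j := by omega
  obtain ⟨⟨ha, hk, ⟨m, hacc⟩, p, u, hp, hap, hpu, hu⟩, hg, hb, p1, h1, h2⟩ := h
  have e1 : p1 = p := rm_uniq (hm q) h1 hp
  subst e1
  by_cases hc : ∃ w, Ch G c q w
  · -- a child
    obtain ⟨w1, hw1⟩ := hc
    have hw1' := hw1
    obtain ⟨p2, x, x', n, n', T, hn, haw, hwn⟩ := hw1'
    have tQn : tQ G c n := tQ_rm hm T.cn hwn.symm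
    have hY : ¬ Yy G c w1 := by
      intro hY
      refine hg x ⟨(T.nq.nb x).2 (by simp), T.D hm tQn, ?_⟩
      intro w n2 h3 h4 h5 h6
      have cn2 : c n2 = true := by rw [h6.2, apx_col h5]
      rcases T.cor h3 cn2 with e | e
      · exact absurd e h4
      · subst e
        have e : w = w1 := rm_uniq (hm n2) h6.symm hwn.symm
        rw [e]
        exact hY
    have hk1 : ¬ K4 G c w1 := by
      rintro ⟨p3, y, y', X⟩
      have e : p3 = n := rm_uniq (hm w1) X.rqp hwn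
      subst e
      exact out_nap hG hj1 hK T hk ((k4_symm hG X).apx hm)
    have hac : ∃ m, Acc G c m w1 := by
      by_contra h7
      push Not at h7
      exact hY ⟨haw, hk1, h7⟩
    obtain ⟨m1, hm1⟩ := hac
    obtain ⟨w, hw, p3, y, y', l, l', Y, hl⟩ := acc_desc hm1
    have htg : Relation.TransGen (Ch G c) q w := Relation.TransGen.head' hw1 hw
    obtain ⟨x0, hx0, hch⟩ := Relation.TransGen.tail'_iff.1 htg
    have hnap := ch_nap hG hj1 hK hch Y.rqp
    obtain ⟨p0, y0, y0', n0, m0', X, hn0, haw', hwn0⟩ := hch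
    have e : n0 = p3 := rm_uniq (hm w) hwn0 Y.rqp
    subst e
    have hxw : x0 ≠ w := by
      rintro rfl
      exact hn0 (rm_uniq (hm x0) hwn0 X.rqp)
    refine ⟨fun s => s = y, ?_, ⟨y, rfl⟩, Or.inl ⟨y, l, fun _ => Iff.rfl,
      (Y.nx.nb l).2 (by simp), hl, ?_⟩⟩
    · rintro s rfl
      exact ⟨w, n0, y', l, l', y0, htg.to_reflTransGen, Y, hl, hnap,
        ((X.nx.nb n0).2 (by simp)).symm, X.D hm (tQ_rm hm Y.cp Y.rqp.symm)⟩
    · intro f hf hlf
      obtain ⟨mf, b, S, ta, tb⟩ := fr_dat hG hm hf hlf.symm hl.1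
      exact LW V G hG c j hj1 hK w n0 y y' l l' x0 p0 y0 y0' m0' f b Y hl X hxw hlf
        (fr_ne hG hm hf Y) (mem_Fr.1 hf).1 ((S.n3.nb b).2 (by simp)) S.n3.yz.symm tb
  · -- no child
    have hA : Ac G c q := by
      obtain ⟨g, g0, g1, g2⟩ := hacc
      cases m with
      | zero => rwa [g0] at g2
      | succ m =>
        have := g1 0 (by omega)
        rw [g0] at this
        exact absurd ⟨_, this⟩ hc
    obtain ⟨p2, x, x', n, n', T, hn⟩ := hA
    have e : p2 = p1 := rm_uniq (hm q) T.rqp hp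
    subst e
    obtain ⟨e1, e2, e3⟩ := nk4 hG hj1 hK T hk
    have hn' : tA G c n' := by
      rcases tA_or_tQ hm T.cn' with h3 | h3
      · exact h3
      · exfalso
        refine hg x' ⟨(T.nq.nb x').2 (by simp), T.swap.D hm h3, ?_⟩
        intro w n2 h3 h4 h5 h6
        have cn2 : c n2 = true := by rw [h6.2, apx_col h5]
        rcases T.swap.cor h3 cn2 with e | e
        · exact absurd e h4
        · subst e
          exact absurd ⟨w, p2, x', x, n2, n, T.swap, e2, h5, h6⟩ hc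
    by_cases hf1 : ∃ u1, u1 ∈ Fr G c ∧ G.Adj n u1
    · by_cases hf2 : ∃ u2, u2 ∈ Fr G c ∧ G.Adj n' u2
      · obtain ⟨u1, f1, a1⟩ := hf1
        obtain ⟨u2, f2, a2⟩ := hf2
        obtain ⟨z1, N1, b1⟩ := third_B h6 hG hj hK T hap hn hn' a1 a2 f1 f2
        obtain ⟨z2, N2, b2⟩ := third_B h6 hG hj hK T.swap hap hn' hn a2 a1 f2 f1
        refine ⟨fun s => s = x ∨ s = x', ?_, ⟨x, Or.inl rfl⟩, Or.inr
          ⟨q, p2, x, x', n, n', u1, u2, z1, z2, T, hn, hn', fun _ => Iff.rfl, N1, N2,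
            h6 V G hG c j hj hK q p2 x x' n n' u1 u2 T hap hn hn' a1 a2 f1 f2, f1, f2, b1,
            b2⟩⟩
        rintro s (rfl | rfl)
        · exact ⟨q, p2, x', n, n', v, Relation.ReflTransGen.refl, T, hn, hap, h2, hb.1⟩
        · exact ⟨q, p2, x, n', n, v, Relation.ReflTransGen.refl, T.swap, hn', hap, h2, hb.1⟩
      · push Not at hf2
        refine ⟨fun s => s = x', ?_, ⟨x', rfl⟩, Or.inl ⟨x', n', fun _ => Iff.rfl,
          (T.nx'.nb n').2 (by simp), hn', fun f hf => hf2 f hf⟩⟩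
        rintro s rfl
        exact ⟨q, p2, x, n', n, v, Relation.ReflTransGen.refl, T.swap, hn', hap, h2, hb.1⟩
    · push Not at hf1
      refine ⟨fun s => s = x, ?_, ⟨x, rfl⟩, Or.inl ⟨x, n, fun _ => Iff.rfl,
        (T.nx.nb n).2 (by simp), hn, fun f hf => hf1 f hf⟩⟩
      rintro s rfl
      exact ⟨q, p2, x', n, n', v, Relation.ReflTransGen.refl, T, hn, hap, h2, hb.1⟩

end

/-- row L from SIX -/
theorem L_of (h6 : ST_SIX) : ST_L := by
  intro V _ _ G _ hG c j hj hE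
  have hK := hE.ck
  have hm := hK.1.mu1
  have hj1 : 1 ≤ j := by omega
  -- choice of payers
  have hex : ∀ q : V, ∃ d : V, E34 G c q → PF G c q d := by
    intro q
    by_cases h : E34 G c q
    · obtain ⟨d, hd⟩ := pf_ex hG hj1 hE h
      exact ⟨d, fun _ => hd⟩
    · exact ⟨q, fun h' => absurd h' h⟩
  choose f hf using hex
  -- choice of sources
  have hex2 : ∀ q : V, ∃ S : V → Prop, ∀ v, Zq G c v q → Sp G c q S ∧ (∃ y, S y) ∧
      (Lp G c (fun _ => S) v ∨ Lpp G c (fun _ => S) v) := by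
    intro q
    by_cases h : ∃ v, Zq G c v q
    · obtain ⟨v, hv⟩ := h
      obtain ⟨S, hS⟩ := src_ex h6 hG hj hK hv
      refine ⟨S, fun v' hv' => ?_⟩
      have e := zq_uniq' hG hj1 hK hv hv'
      subst e
      exact hS
    · exact ⟨fun _ => False, fun v hv => absurd ⟨v, hv⟩ h⟩
  choose S hS using hex2
  -- corners of descendants
  have key : ∀ v v' y y', (∃ q, Zq G c v q ∧ S q y) → (∃ q, Zq G c v' q ∧ S q y') →
      (y = y' ∨ Rm G c y y') → v = v' := by
    rintro v v' y y' ⟨q, hq, hy⟩ ⟨q', hq', hy'⟩ hyy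
    obtain ⟨w, p, x', n, n', d, r1, T, tn, _⟩ := (hS q v hq).1 y hy
    obtain ⟨w', p', z', l, l', d', r2, X, tl, _⟩ := (hS q' v' hq').1 y' hy'
    have a1 : G.Adj w y' := by
      rcases hyy with e | e
      · rw [← e]
        exact (T.nq.nb y).2 (by simp)
      · have e : y' = x' := rm_uniq (hm y) e T.rxx
        rw [e]
        exact (T.nq.nb x').2 (by simp)
    have e : w' = w := cor_uniq hG hj1 hK (T.apx hm) (nk4_of hm T tn) (X.apx hm) X.cx a1
      ((X.nq.nb y').2 (by simp))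
    subst e
    have e := desc_uniq hG hj1 hK r1 r2 (zq_root hG hj1 hK hq) (zq_root hG hj1 hK hq')
    subst e
    exact zq_uniq' hG hj1 hK hq hq'
  refine ⟨fun v y => ∃ q, Zq G c v q ∧ S q y, ⟨?_, ?_, ?_, ?_, ?_, ?_⟩⟩
  · rintro v y ⟨q, hq, _⟩
    exact hq.2.2.1
  · rintro v y ⟨q, hq, hy⟩
    obtain ⟨w, p, y', n, n', d, _, T, tn, h1, h2, h3⟩ := (hS q v hq).1 y hy
    exact ⟨T.T hm tn, w, p, y', n, n', d, T, tn, h1, h2, h3⟩
  · intro v v' y h h'
    exact key v v' y y h h' (Or.inl rfl)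
  · intro v v' y y' h h' hr
    exact key v v' y y' h h' (Or.inr hr)
  · rintro v y ⟨q, hq, hy⟩
    have hL : ∀ y', (∃ q, Zq G c v q ∧ S q y') ↔ S q y' := by
      intro y'
      constructor
      · rintro ⟨q', hq', hy'⟩
        rw [zq_uniq hG hj1 hK hq hq']
        exact hy'
      · exact fun h => ⟨q, hq, h⟩
    rcases (hS q v hq).2.2 with ⟨y1, n, h1, h2⟩ | ⟨w, p, y1, y2, n1, n2, u1, u2, z1, z2, h1, h2,
      h3, h4, h5⟩
    · exact Or.inl ⟨y1, n, fun y' => (hL y').trans (h1 y'), h2⟩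
    · exact Or.inr ⟨w, p, y1, y2, n1, n2, u1, u2, z1, z2, h1, h2, h3,
        fun y' => (hL y').trans (h4 y'), h5⟩
  · have h1 := (Pool.Agent.Helper92.MC.st_FCNT V G hG c j hm hK.1.imb2).1
    rw [card_Th hG hj1 hK.1] at h1
    have h3 : ∀ R : Finset V, (∀ v ∈ R, Bd G c v ∧ ∀ y, ¬ ∃ q, Zq G c v q ∧ S q y) →
        6 * j + R.card ≤ (Fr G c).card := by
      intro R hR
      have h2 := count_gen hG hj1 hE f R
        (fun q hq => ⟨?_, fun w hw hy => pf_nc hG hj1 hE.ck hq (hf q hq) hw hy⟩)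
        (fun q q' hq hq' e => pf_inj hG hj1 hE.ck hq hq' (hf q hq) (e ▸ hf q' hq')) ?_
      · omega
      · rcases hf q hq with h | h
        · exact h.2.1
        · exact h.2.1
      · intro v hv
        have hv' := hR v hv
        refine ⟨hv'.1.1, fun w hw => bd_nc hG hm hv'.1 hw, ?_⟩
        intro q hq e
        have h3 := hf q hq
        rw [e] at h3
        rcases h3 with h3 | ⟨h3, _, p, hp, hpv⟩
        · exact bd_nc hG hm hv'.1 hq.1 h3.1
        · have hz : Zq G c v q := ⟨hq, h3, hv'.1, p, hp, hpv⟩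
          obtain ⟨y, hy⟩ := (hS q v hz).2.1
          exact hv'.2 y ⟨q, hz, hy⟩
    refine h3 _ fun v hv => ?_
    simp only [Finset.mem_filter, Finset.mem_univ, true_and] at hv
    exact hv

/-- row L -/
theorem rowL : ST_L := L_of Pool.Agent.Helper53.MC.st_SIX

end Pool.Agent.Helper96.MC
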