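import Mathlib
import Pool.Agent.Helper33.MC.StG
import Pool.Agent.Helper96.MC.L
import Pool.Agent.Helper53.MC.EX2

/-!
MP_4042d8_co, section D, part II: the facts hold for extremal colourings.
-/

set_option autoImplicit false
set_option linter.unusedSectionVars false
set_option linter.unusedVariables false

namespace Pool.Agent.Helper96.MC

open Pool.Agent.Helper27.MC hiding Fr T1 ter
open Pool.Agent.Helper51.MC Pool.Agent.Helper88.MC Pool.Agent.Helper64.MC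
open Pool.Agent.Helper91.MC Pool.Agent.Helper42.MC
open Pool.Agent.Helper79.MC (Sqg NH gf3 gkap gr3 gr4 gr5)
open Pool.Agent.Helper91.MC.GK (Khb gk0 gk1 gex)
open Pool.Agent.Helper33.MC (FxG ST_GFX)

/-- row GFX -/
theorem gfx : ST_GFX := by
  intro V _ _ G _ hG c j hj hE
  have hj1 : 1 ≤ j := by omega
  have hK := hE.ck
  have hO := hK.1
  have hm := hO.mu1
  have hN : NH G j := Pool.Agent.Helper53.MC.nh2 hG hj
  obtain ⟨L, hL⟩ := rowL V G hG c j hj hE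
  refine ⟨L, ⟨hG, hm, ?_, ?_, ?_, ?_, ?_, ?_, ?_, ?_, ?_, ?_, ?_, ?_, hL, ?_⟩⟩
  · intro q s s' tq ts ts' a a' ne
    exact F1 hG hj1 hO tq ts ts' a a' ne
  · intro a s1 s2 s3 av ta t1 t2 t3
    exact hN.use hG hO av ta t1 t2 t3
  · intro a s1 s2 ta f1 f2 ne n12 a1 a2
    exact gf3 hG hj1 hO hN ta f1 f2 ne n12 a1 a2
  · intro a f1 f2 f3 av ta k1 k2 k3
    exact gkap hG hj1 hO hN av ta k1 k2 k3
  · intro u v a b t1 t2 r1 r2 p1 p2 K
    exact gk0 hG hj1 c1' C2 hK K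
  · intro u v a b t1 t2 r1 r2 p1 p2 g z K h3 hg
    have h := gk0 hG hj1 c1' C2 hK K
    exact Pool.Agent.Helper91.MC.GK.third_B hG hj1 hO K.q1.symm (by rw [K.q1.2, K.h1.cb]) h3 hg
      h.2.2
  · intro u v a b t1 t2 r1 r2 p1 p2 g z m e K hp hz hg he hgv hgt
    exact gk1 hG hj1 hO K hp hz hg he hgv hgt
  · intro s1 s2 a b v1 v2 za zb n1 n2 f h nz tz t1 t2 hf f1 f2 fn
    exact gr3 hG hj1 hO hN h nz tz t1 t2 hf f1 f2 fn
  · intro s1 s2 a b v1 v2 za zb n x y h tn na nw tx ty nx ny xy x1 x2 y1 y2 xz yz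
    exact gr4 hG hO hN h tn na nw tx ty nx ny xy x1 x2 y1 y2 xz yz
  · intro s1 s2 a b v1 v2 za zb f v x y t1 t2 r1 r2 p1 p2 n2 h K nz tz t2' f1 f2
    exact gr5 hG hj1 hO h K nz tz t2' f1 f2
  · intro q p t m e hq hr hp ht he
    exact gex hG hj1 C2 c7' hE hq hr hp ht he
  · intro q p t y y' tq r a ht ay ay' hy hy'
    exact Pool.Agent.Helper53.MC.one_T1 hG hj1 hE r tq.1 a ht ay ay' hy hy'
  · exact hL.mat

end Pool.Agent.Helper96.MC
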